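import Pool.Agent.K4H4.GL.Kolm

/-!
# The distribution function
-/

set_option autoImplicit false

namespace Pool.Agent.K4H4.GL

open MeasureTheory Real ProbabilityTheory Finset

theorem dfac_le (m : ℕ) : (Nat.doubleFactorial (2 * m - 1) : ℝ) ≤ (m : ℝ) ^ m := by
  have h1 := dfac m
  have h2 : (2 * m).factorial ≤ m.factorial * (2 * m) ^ m := by
    have h3 := Nat.factorial_mul_descFactorial (show m ≤ 2 * m by omega)
    rw [show 2 * m - m = m by omega] at h3
    rw [← h3]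
    exact Nat.mul_le_mul_left _ (Nat.descFactorial_le_pow _ _)
  have h3 : (0 : ℝ) < (2 * m).factorial := by exact_mod_cast Nat.factorial_pos _
  have h4 : (0 : ℝ) < m.factorial := by exact_mod_cast Nat.factorial_pos _
  rw [div_eq_iff h3.ne'] at h1
  rw [h1]
  have h5 : ((2 * m).factorial : ℝ) ≤ m.factorial * (2 * m : ℝ) ^ m := by exact_mod_cast h2
  rw [one_div, inv_mul_le_iff₀ (by positivity)]
  refine h5.trans (le_of_eq ?_)
  rw [mul_pow]
  ring

section Points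

variable {ι : Type} (s : Finset ι) (X : ι → ℝ)

open Classical in
theorem tail_count (m : ℕ) (hm : 1 ≤ m) (E : ℝ) (hE : 0 ≤ E) (hmom : |Lam s X (fun z => z ^ (2 * m))| ≤ E) :
    ((s.filter (fun i => 2 * Real.sqrt (2 * m) ≤ |X i|)).card : ℝ) ≤ s.card * (1 / 8) ^ m + E := by
  have hm1 : (1 : ℝ) ≤ m := by exact_mod_cast hm
  obtain ⟨L, hL⟩ : ∃ L : ℝ, L = 2 * Real.sqrt (2 * m) := ⟨_, rfl⟩
  have hL0 : 0 ≤ L := by rw [hL]; positivity
  have hL2 : L ^ (2 * m) = (8 * (m : ℝ)) ^ m := by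
    rw [hL, pow_mul, mul_pow, Real.sq_sqrt (by positivity)]
    congr 1
    ring
  have h8 : (0 : ℝ) < (8 * (m : ℝ)) ^ m := by positivity
  have h1 : ((s.filter (fun i => L ≤ |X i|)).card : ℝ) * L ^ (2 * m) ≤ ∑ i ∈ s, X i ^ (2 * m) := by
    rw [← nsmul_eq_mul]
    refine (card_nsmul_le_sum _ (fun i => X i ^ (2 * m)) _ fun i hi => ?_).trans
      (sum_le_sum_of_subset_of_nonneg (filter_subset _ _) fun i _ _ => by rw [pow_mul]; positivity)
    rw [mem_filter] at hi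
    have h2 : X i ^ (2 * m) = |X i| ^ (2 * m) := by rw [pow_mul, pow_mul, sq_abs]
    rw [h2]
    exact pow_le_pow_left₀ hL0 hi.2 _
  have h2 : ∑ i ∈ s, X i ^ (2 * m) ≤ E + s.card * (m : ℝ) ^ m := by
    unfold Lam at hmom
    rw [Pool.Agent.R320.KL.gm_even m, abs_le] at hmom
    have h3 := mul_le_mul_of_nonneg_left (dfac_le m) (Nat.cast_nonneg (α := ℝ) s.card)
    linarith [hmom.2]
  rw [← hL]
  rw [hL2] at h1
  have h3 : ((s.filter (fun i => L ≤ |X i|)).card : ℝ) ≤ (E + s.card * (m : ℝ) ^ m) / (8 * (m : ℝ)) ^ m := by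
    rw [le_div_iff₀ h8]
    exact h1.trans h2
  refine h3.trans ?_
  rw [add_div, add_comm]
  apply add_le_add
  · apply le_of_eq
    rw [mul_pow, one_div, inv_pow]
    field_simp
  · apply div_le_self hE
    have : (1 : ℝ) ≤ 8 * m := by linarith
    exact one_le_pow₀ this

theorem tail_gauss (m : ℕ) (hm : 1 ≤ m) : (gaussianReal 0 1).real {z : ℝ | 2 * Real.sqrt (2 * m) ≤ |z|} ≤ (1 / 8) ^ m := by
  have hm1 : (1 : ℝ) ≤ m := by exact_mod_cast hm
  obtain ⟨L, hL⟩ : ∃ L : ℝ, L = 2 * Real.sqrt (2 * m) := ⟨_, rfl⟩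
  have hL0 : 0 ≤ L := by rw [hL]; positivity
  have hL2 : L ^ (2 * m) = (8 * (m : ℝ)) ^ m := by
    rw [hL, pow_mul, mul_pow, Real.sq_sqrt (by positivity)]
    congr 1
    ring
  have h8 : (0 : ℝ) < (8 * (m : ℝ)) ^ m := by positivity
  rw [← hL]
  have h1 := mul_meas_ge_le_integral_of_nonneg (μ := gaussianReal 0 1) (f := fun z : ℝ => z ^ (2 * m))
    (Filter.Eventually.of_forall fun z => by
      show (0 : ℝ) ≤ z ^ (2 * m)
      rw [pow_mul]
      positivity) (Pool.Agent.K4H4.ST.gauss_int (2 * m)) (L ^ (2 * m))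
  have h2 : (gaussianReal 0 1).real {z : ℝ | L ≤ |z|} ≤ (gaussianReal 0 1).real {z : ℝ | L ^ (2 * m) ≤ z ^ (2 * m)} := by
    refine measureReal_mono (fun z hz => ?_) (measure_ne_top _ _)
    have hz' : L ≤ |z| := hz
    show L ^ (2 * m) ≤ z ^ (2 * m)
    have h3 : z ^ (2 * m) = |z| ^ (2 * m) := by rw [pow_mul, pow_mul, sq_abs]
    rw [h3]
    exact pow_le_pow_left₀ hL0 hz' _
  rw [Pool.Agent.R320.KL.gm_even m, hL2] at h1
  rw [hL2] at h2
  refine h2.trans ?_
  have h3 : (gaussianReal 0 1).real {z : ℝ | (8 * (m : ℝ)) ^ m ≤ z ^ (2 * m)} ≤ (m : ℝ) ^ m / (8 * (m : ℝ)) ^ m := by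
    rw [le_div_iff₀ h8, mul_comm]
    exact h1.trans (dfac_le m)
  refine h3.trans (le_of_eq ?_)
  rw [mul_pow, one_div, inv_pow]
  field_simp

theorem pow_small (m : ℕ) (hm : 1 ≤ m) : (35 / 100 : ℝ) ^ m ≤ 1 / (m * Real.sqrt m) := by
  have hm1 : (1 : ℝ) ≤ m := by exact_mod_cast hm
  have h1 : (m : ℝ) ≤ 2 ^ m := by exact_mod_cast (Nat.lt_two_pow_self (n := m)).le
  have hs : 0 < Real.sqrt m := Real.sqrt_pos.2 (by linarith)
  have h2 : (1 / 2 : ℝ) ^ m ≤ 1 / m := by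
    rw [one_div, inv_pow, ← one_div]
    exact one_div_le_one_div_of_le (by linarith) h1
  have h3 : (7 / 10 : ℝ) ^ m ≤ 1 / Real.sqrt m := by
    rw [le_div_iff₀ hs]
    have h4 : ((7 / 10 : ℝ) ^ m * Real.sqrt m) ^ 2 ≤ 1 ^ 2 := by
      rw [mul_pow, Real.sq_sqrt (by linarith), ← pow_mul, mul_comm m 2, pow_mul]
      have h5 : ((7 / 10 : ℝ) ^ 2) ^ m ≤ (1 / 2 : ℝ) ^ m := pow_le_pow_left₀ (by norm_num) (by norm_num) m
      calc ((7 / 10 : ℝ) ^ 2) ^ m * m ≤ (1 / 2 : ℝ) ^ m * m := mul_le_mul_of_nonneg_right h5 (by linarith)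
        _ ≤ 1 / m * m := mul_le_mul_of_nonneg_right h2 (by linarith)
        _ = 1 ^ 2 := by
          field_simp
    exact le_of_sq_le_sq h4 (by norm_num)
  have h6 : (35 / 100 : ℝ) ^ m = (1 / 2) ^ m * (7 / 10) ^ m := by
    rw [← mul_pow]
    norm_num
  rw [h6]
  calc (1 / 2 : ℝ) ^ m * (7 / 10) ^ m ≤ 1 / m * (1 / Real.sqrt m) := mul_le_mul h2 h3 (by positivity) (by positivity)
    _ = _ := by
      field_simp

open Classical in
/-- **From moments to the distribution function.** -/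
theorem half_line (m : ℕ) (hm : 1 ≤ m) : ∃ Cm : ℝ, 0 ≤ Cm ∧ ∀ {ι : Type} (s : Finset ι) (X : ι → ℝ) (E : ℝ), 0 ≤ E →
    (∀ k, 1 ≤ k → k ≤ 2 * m → |Lam s X (fun z => z ^ k)| ≤ E) → ∀ x : ℝ,
    |((s.filter (fun i => X i ≤ x)).card : ℝ) - s.card * (gaussianReal 0 1).real (Set.Iic x)| ≤
      12500 / Real.sqrt m * s.card + Cm * E := by
  have hm1 : (1 : ℝ) ≤ m := by exact_mod_cast hm
  refine ⟨(700 * m) * (2 * Real.exp m) + 1, by positivity, ?_⟩
  intro ι s X E hE hmom x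
  have hs : 0 < Real.sqrt m := Real.sqrt_pos.2 (by linarith)
  have hss : Real.sqrt m * Real.sqrt m = m := Real.mul_self_sqrt (by linarith)
  have hs1 : 1 ≤ Real.sqrt m := Real.one_le_sqrt.2 hm1
  have hn : (0 : ℝ) ≤ s.card := Nat.cast_nonneg _
  obtain ⟨η, hη⟩ : ∃ η : ℝ, η = 2 * E * Real.exp m + 2 * (s.card : ℝ) * (35 / 100) ^ m := ⟨_, rfl⟩
  have hη0 : 0 ≤ η := by rw [hη]; positivity
  obtain ⟨L, hL⟩ : ∃ L : ℝ, L = 2 * Real.sqrt (2 * m) := ⟨_, rfl⟩
  have hL0 : 0 < L := by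
    rw [hL]
    have : 0 < Real.sqrt (2 * m) := Real.sqrt_pos.2 (by linarith)
    positivity
  have hL3 : L ≤ 3 * Real.sqrt m := by
    rw [hL, Real.sqrt_mul (by norm_num)]
    have h2 : Real.sqrt 2 ≤ 3 / 2 := by
      rw [Real.sqrt_le_left (by norm_num)]
      norm_num
    nlinarith
  -- the interval
  obtain ⟨b, hb⟩ : ∃ b : ℝ, b = max (-L) (min x L) := ⟨_, rfl⟩
  have hb1 : -L ≤ b := by rw [hb]; exact le_max_left _ _
  have hb2 : b ≤ L := by rw [hb]; exact max_le (by linarith) (min_le_right _ _)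
  have hequiv : ∀ y : ℝ, |y| < L → (y ≤ x ↔ -L ≤ y ∧ y ≤ b) := by
    intro y hy
    rw [abs_lt] at hy
    rw [hb]
    constructor
    · intro h
      exact ⟨hy.1.le, le_max_of_le_right (le_min h hy.2.le)⟩
    · rintro ⟨_, h⟩
      rcases le_max_iff.1 h with h1 | h1
      · linarith [hy.1]
      · exact h1.trans (min_le_left _ _)
  have hint := interval_count s X (Real.sqrt m / 2) η (fun u φ hu => by
    rw [hη]
    exact Lam_cos' s X m E hE hmom hm u φ hu) (Real.sqrt m / 4) (-L) b (by positivity) (by linarith) hb1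
  -- the tails
  have ht1 := tail_count s X m hm E hE (hmom (2 * m) (by omega) le_rfl)
  have ht2 := tail_gauss m hm
  rw [← hL] at ht1 ht2
  have hc : |((s.filter (fun i => X i ≤ x)).card : ℝ) - ((s.filter (fun i => -L ≤ X i ∧ X i ≤ b)).card : ℝ)| ≤
      ((s.filter (fun i => L ≤ |X i|)).card : ℝ) := by
    rw [card_filter, card_filter, card_filter]
    push_cast
    rw [← sum_sub_distrib]
    refine (abs_sum_le_sum_abs _ _).trans (sum_le_sum fun i _ => ?_)
    by_cases h1 : L ≤ |X i|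
    · rw [if_pos h1]
      split_ifs <;> norm_num
    · have h2 := hequiv (X i) (not_le.1 h1)
      rw [if_neg h1]
      by_cases h3 : X i ≤ x
      · rw [if_pos h3, if_pos (h2.1 h3), sub_self, abs_zero]
      · rw [if_neg h3, if_neg (fun h => h3 (h2.2 h)), sub_self, abs_zero]
  have hg : |(gaussianReal 0 1).real (Set.Iic x) - (gaussianReal 0 1).real (Set.Icc (-L) b)| ≤
      (gaussianReal 0 1).real {z : ℝ | L ≤ |z|} := by
    have h1 : Set.Iic x ⊆ Set.Icc (-L) b ∪ {z : ℝ | L ≤ |z|} := by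
      intro z hz
      by_cases h1 : L ≤ |z|
      · exact Or.inr h1
      · exact Or.inl ((hequiv z (not_le.1 h1)).1 hz)
    have h2 : Set.Icc (-L) b ⊆ Set.Iic x ∪ {z : ℝ | L ≤ |z|} := by
      intro z hz
      by_cases h1 : L ≤ |z|
      · exact Or.inr h1
      · exact Or.inl ((hequiv z (not_le.1 h1)).2 hz)
    have h3 := (measureReal_mono (μ := gaussianReal 0 1) h1).trans (measureReal_union_le _ _)
    have h4 := (measureReal_mono (μ := gaussianReal 0 1) h2).trans (measureReal_union_le _ _)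
    rw [abs_le]
    constructor <;> linarith
  -- sum up
  have h8 : (1 / 8 : ℝ) ^ m ≤ 1 / Real.sqrt m := by
    have h9 : (1 / 8 : ℝ) ^ m ≤ (35 / 100 : ℝ) ^ m := pow_le_pow_left₀ (by norm_num) (by norm_num) m
    refine (h9.trans (pow_small m hm)).trans ?_
    apply one_div_le_one_div_of_le hs
    nlinarith
  have hmain : |((s.filter (fun i => X i ≤ x)).card : ℝ) - s.card * (gaussianReal 0 1).real (Set.Iic x)| ≤
      (s.card * (1 / 8) ^ m + E) + (8 * (Real.sqrt m / 4 * (η * |b - -L|)) + 688 * η + 2752 * (s.card : ℝ) / (Real.sqrt m / 4)) + s.card * (1 / 8) ^ m := by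
    have e : ((s.filter (fun i => X i ≤ x)).card : ℝ) - s.card * (gaussianReal 0 1).real (Set.Iic x) =
        (((s.filter (fun i => X i ≤ x)).card : ℝ) - ((s.filter (fun i => -L ≤ X i ∧ X i ≤ b)).card : ℝ)) +
        (((s.filter (fun i => -L ≤ X i ∧ X i ≤ b)).card : ℝ) - s.card * (gaussianReal 0 1).real (Set.Icc (-L) b)) -
        s.card * ((gaussianReal 0 1).real (Set.Iic x) - (gaussianReal 0 1).real (Set.Icc (-L) b)) := by ring
    rw [e]
    refine (abs_sub _ _).trans ?_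
    apply add_le_add
    · exact (abs_add_le _ _).trans (add_le_add (hc.trans ht1) hint)
    · rw [abs_mul, abs_of_nonneg hn]
      exact mul_le_mul_of_nonneg_left (hg.trans ht2) hn
  refine hmain.trans ?_
  have h9 : |b - -L| ≤ 6 * Real.sqrt m := by
    rw [abs_of_nonneg (by linarith)]
    linarith
  have h10 : 8 * (Real.sqrt m / 4 * (η * |b - -L|)) ≤ 12 * m * η := by
    calc 8 * (Real.sqrt m / 4 * (η * |b - -L|)) ≤ 8 * (Real.sqrt m / 4 * (η * (6 * Real.sqrt m))) := by gcongr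
      _ = 12 * (Real.sqrt m * Real.sqrt m) * η := by ring
      _ = 12 * m * η := by rw [hss]
  have h11 : 12 * m * η + 688 * η ≤ 700 * m * η := by nlinarith
  have h12 : 700 * (m : ℝ) * (2 * (s.card : ℝ) * (35 / 100) ^ m) ≤ 1400 / Real.sqrt m * s.card := by
    have h13 := pow_small m hm
    calc 700 * (m : ℝ) * (2 * (s.card : ℝ) * (35 / 100) ^ m) ≤ 700 * (m : ℝ) * (2 * (s.card : ℝ) * (1 / (m * Real.sqrt m))) := by gcongr
      _ = 1400 / Real.sqrt m * s.card := by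
        field_simp
        ring
  have h14 : 2752 * (s.card : ℝ) / (Real.sqrt m / 4) = 11008 / Real.sqrt m * s.card := by
    field_simp
    ring
  have h15 : (s.card : ℝ) * (1 / 8) ^ m ≤ 1 / Real.sqrt m * s.card := by
    rw [mul_comm]
    exact mul_le_mul_of_nonneg_right h8 hn
  have h16 : 700 * (m : ℝ) * η = 700 * (m : ℝ) * (2 * Real.exp m) * E + 700 * (m : ℝ) * (2 * (s.card : ℝ) * (35 / 100) ^ m) := by
    rw [hη]
    ring
  have h17 : 12500 / Real.sqrt m * (s.card : ℝ) = 1400 / Real.sqrt m * s.card + 11008 / Real.sqrt m * s.card +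
      1 / Real.sqrt m * s.card + 1 / Real.sqrt m * s.card + 90 / Real.sqrt m * s.card := by ring
  have h18 : 0 ≤ 90 / Real.sqrt m * (s.card : ℝ) := by positivity
  rw [h14, h17]
  have h19 : ((700 * m) * (2 * Real.exp m) + 1) * E = 700 * (m : ℝ) * (2 * Real.exp m) * E + E := by ring
  rw [h19]
  linarith

end Points

end Pool.Agent.K4H4.GL
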