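import Pool.Agent.K4H4.GL.Lam

/-!
# The characteristic function of a point distribution with almost Gaussian moments
-/

set_option autoImplicit false

namespace Pool.Agent.K4H4.GL

open MeasureTheory Real ProbabilityTheory Finset

variable {ι : Type} (s : Finset ι) (X : ι → ℝ)

theorem Lam_one : Lam s X (fun z => z ^ 0) = 0 := by
  unfold Lam
  simp

theorem Lam_poly (n : ℕ) (c : ℕ → ℝ) : Lam s X (fun z => ∑ k ∈ range n, c k * z ^ k) = ∑ k ∈ range n, c k * Lam s X (fun z => z ^ k) := by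
  unfold Lam
  rw [integral_finset_sum _ (fun k _ => (Pool.Agent.K4H4.ST.gauss_int k).const_mul _), sum_comm, mul_sum, ← sum_sub_distrib]
  apply sum_congr rfl
  intro k _
  rw [integral_const_mul, ← mul_sum]
  ring

theorem cos_eq (u φ x : ℝ) : Real.cos (u * x + φ) = (Complex.exp (φ * Complex.I) * Complex.exp ((u * x : ℝ) * Complex.I)).re := by
  rw [← Complex.exp_add, ← add_mul]
  have : ((φ : ℂ) + ((u * x : ℝ) : ℂ)) = ((u * x + φ : ℝ) : ℂ) := by
    push_cast
    ring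
  rw [this, Complex.exp_ofReal_mul_I_re]

theorem dfac (m : ℕ) : (Nat.doubleFactorial (2 * m - 1) : ℝ) / ((2 * m).factorial : ℝ) = 1 / (2 ^ m * (m.factorial : ℝ)) := by
  have h1 : (2 * m).factorial = 2 ^ m * m.factorial * Nat.doubleFactorial (2 * m - 1) := by
    rcases Nat.eq_zero_or_pos m with h | h
    · rw [h]
      rfl
    · have h2 := Nat.factorial_eq_mul_doubleFactorial (2 * m - 1)
      rw [show 2 * m - 1 + 1 = 2 * m by omega, Nat.doubleFactorial_two_mul] at h2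
      exact h2
  rw [h1]
  push_cast
  have h3 : (Nat.doubleFactorial (2 * m - 1) : ℝ) ≠ 0 := by
    exact_mod_cast (Nat.doubleFactorial_pos _).ne'
  have h4 : (m.factorial : ℝ) ≠ 0 := by exact_mod_cast Nat.factorial_ne_zero m
  field_simp

theorem Lam_cos (m : ℕ) (E : ℝ) (hE : 0 ≤ E) (hmom : ∀ k, 1 ≤ k → k ≤ 2 * m → |Lam s X (fun z => z ^ k)| ≤ E) (hm : 1 ≤ m) (u φ : ℝ) :
    |Lam s X (fun x => Real.cos (u * x + φ))| ≤ 2 * E * Real.exp |u| + 2 * (s.card : ℝ) * ((u ^ 2 / 2) ^ m / (m.factorial : ℝ)) := by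
  obtain ⟨c, hc⟩ : ∃ c : ℕ → ℝ, c = fun k => (Complex.exp (φ * Complex.I) * (((u : ℂ) * Complex.I) ^ k / (k.factorial : ℂ))).re := ⟨_, rfl⟩
  have hcb : ∀ k, |c k| ≤ |u| ^ k / (k.factorial : ℝ) := by
    intro k
    rw [hc]
    refine (Complex.abs_re_le_norm _).trans ?_
    rw [norm_mul, Complex.norm_exp_ofReal_mul_I, one_mul, norm_div, norm_pow, norm_mul, Complex.norm_I, mul_one, Complex.norm_real,
      Real.norm_eq_abs, Complex.norm_natCast]
  have hP : ∀ x : ℝ, ∑ k ∈ range (2 * m), c k * x ^ k =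
      (Complex.exp (φ * Complex.I) * ∑ k ∈ range (2 * m), ((u * x : ℝ) * Complex.I) ^ k / (k.factorial : ℂ)).re := by
    intro x
    rw [mul_sum, Complex.re_sum]
    apply sum_congr rfl
    intro k _
    rw [hc]
    have : Complex.exp (φ * Complex.I) * (((u * x : ℝ) * Complex.I) ^ k / (k.factorial : ℂ)) =
        Complex.exp (φ * Complex.I) * (((u : ℂ) * Complex.I) ^ k / (k.factorial : ℂ)) * ((x ^ k : ℝ) : ℂ) := by
      push_cast
      ring
    rw [this, Complex.re_mul_ofReal]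
  obtain ⟨R, hR⟩ : ∃ R : ℝ → ℝ, R = fun x => Real.cos (u * x + φ) - ∑ k ∈ range (2 * m), c k * x ^ k := ⟨_, rfl⟩
  have hRb : ∀ x, |R x| ≤ |u| ^ (2 * m) / ((2 * m).factorial : ℝ) * x ^ (2 * m) := by
    intro x
    rw [hR]
    show |Real.cos (u * x + φ) - ∑ k ∈ range (2 * m), c k * x ^ k| ≤ _
    rw [cos_eq, hP, ← Complex.sub_re, ← mul_sub]
    refine (Complex.abs_re_le_norm _).trans ?_
    rw [norm_mul, Complex.norm_exp_ofReal_mul_I, one_mul]
    refine (exp_rem (2 * m) (u * x)).trans (le_of_eq ?_)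
    rw [abs_mul, mul_pow]
    have : |x| ^ (2 * m) = x ^ (2 * m) := by
      rw [pow_mul, sq_abs, ← pow_mul]
    rw [this]
    ring
  have hRi : Integrable R (gaussianReal 0 1) := by
    rw [hR]
    apply Integrable.sub
    · exact int_bdd (by fun_prop) 1 (fun x => Real.abs_cos_le_one _)
    · exact integrable_finset_sum _ fun k _ => (Pool.Agent.K4H4.ST.gauss_int k).const_mul _
  have hPi : Integrable (fun x : ℝ => ∑ k ∈ range (2 * m), c k * x ^ k) (gaussianReal 0 1) :=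
    integrable_finset_sum _ fun k _ => (Pool.Agent.K4H4.ST.gauss_int k).const_mul _
  have hsplit : Lam s X (fun x => Real.cos (u * x + φ)) = Lam s X (fun x : ℝ => ∑ k ∈ range (2 * m), c k * x ^ k) + Lam s X R := by
    rw [← Lam_add s X hPi hRi]
    congr 1
    funext x
    rw [hR]
    ring
  -- the polynomial
  have hexp : ∀ n : ℕ, ∑ k ∈ range n, |u| ^ k / (k.factorial : ℝ) ≤ Real.exp |u| := fun n => Real.sum_le_exp_of_nonneg (abs_nonneg u) n
  have h1 : |Lam s X (fun x : ℝ => ∑ k ∈ range (2 * m), c k * x ^ k)| ≤ E * Real.exp |u| := by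
    rw [Lam_poly]
    refine (abs_sum_le_sum_abs _ _).trans ((sum_le_sum (g := fun k => E * (|u| ^ k / (k.factorial : ℝ))) fun k hk => ?_).trans ?_)
    · rw [abs_mul, mul_comm]
      rw [mem_range] at hk
      rcases Nat.eq_zero_or_pos k with h0 | h0
      · rw [h0, Lam_one, abs_zero, zero_mul]
        positivity
      · exact mul_le_mul (hmom k h0 (by omega)) (hcb k) (abs_nonneg _) hE
    · rw [← mul_sum]
      exact mul_le_mul_of_nonneg_left (hexp _) hE
  -- the remainder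
  have hM : ∫ z, z ^ (2 * m) ∂(gaussianReal 0 1) = (Nat.doubleFactorial (2 * m - 1) : ℝ) := Pool.Agent.R320.KL.gm_even m
  have hn : (0 : ℝ) ≤ s.card := Nat.cast_nonneg _
  have h2 : |Lam s X R| ≤ |u| ^ (2 * m) / ((2 * m).factorial : ℝ) * (E + 2 * s.card * (Nat.doubleFactorial (2 * m - 1) : ℝ)) := by
    have h3 : |∑ i ∈ s, R (X i)| ≤ |u| ^ (2 * m) / ((2 * m).factorial : ℝ) * ∑ i ∈ s, X i ^ (2 * m) := by
      rw [mul_sum]
      exact (abs_sum_le_sum_abs _ _).trans (sum_le_sum fun i _ => hRb _)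
    have h4 : |∫ z, R z ∂(gaussianReal 0 1)| ≤ |u| ^ (2 * m) / ((2 * m).factorial : ℝ) * (Nat.doubleFactorial (2 * m - 1) : ℝ) := by
      rw [← hM, ← integral_const_mul]
      refine (abs_integral_le_integral_abs).trans ?_
      apply integral_mono hRi.abs ((Pool.Agent.K4H4.ST.gauss_int (2 * m)).const_mul _)
      intro x
      exact hRb x
    have h5 : ∑ i ∈ s, X i ^ (2 * m) ≤ E + s.card * (Nat.doubleFactorial (2 * m - 1) : ℝ) := by
      have h6 := hmom (2 * m) (by omega) le_rfl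
      unfold Lam at h6
      rw [hM, abs_le] at h6
      linarith [h6.2]
    have h7 : (0 : ℝ) ≤ |u| ^ (2 * m) / ((2 * m).factorial : ℝ) := by positivity
    unfold Lam
    refine (abs_sub _ _).trans ?_
    rw [abs_mul, abs_of_nonneg hn]
    calc |∑ i ∈ s, R (X i)| + s.card * |∫ z, R z ∂(gaussianReal 0 1)| ≤
        |u| ^ (2 * m) / ((2 * m).factorial : ℝ) * (E + s.card * (Nat.doubleFactorial (2 * m - 1) : ℝ)) +
        s.card * (|u| ^ (2 * m) / ((2 * m).factorial : ℝ) * (Nat.doubleFactorial (2 * m - 1) : ℝ)) :=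
          add_le_add (h3.trans (mul_le_mul_of_nonneg_left h5 h7)) (mul_le_mul_of_nonneg_left h4 hn)
      _ = _ := by ring
  have h8 : |u| ^ (2 * m) / ((2 * m).factorial : ℝ) ≤ Real.exp |u| := Real.pow_div_factorial_le_exp _ (abs_nonneg u) _
  have h9 : |u| ^ (2 * m) / ((2 * m).factorial : ℝ) * (2 * s.card * (Nat.doubleFactorial (2 * m - 1) : ℝ)) =
      2 * (s.card : ℝ) * ((u ^ 2 / 2) ^ m / (m.factorial : ℝ)) := by
    have h10 := dfac m
    have h11 : |u| ^ (2 * m) = (u ^ 2) ^ m := by rw [pow_mul, sq_abs]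
    rw [h11]
    calc (u ^ 2) ^ m / ((2 * m).factorial : ℝ) * (2 * s.card * (Nat.doubleFactorial (2 * m - 1) : ℝ)) =
        2 * s.card * (u ^ 2) ^ m * ((Nat.doubleFactorial (2 * m - 1) : ℝ) / ((2 * m).factorial : ℝ)) := by ring
      _ = 2 * s.card * (u ^ 2) ^ m * (1 / (2 ^ m * (m.factorial : ℝ))) := by rw [h10]
      _ = _ := by
        rw [div_pow]
        field_simp
  rw [hsplit]
  refine (abs_add_le _ _).trans ?_
  have h12 : |u| ^ (2 * m) / ((2 * m).factorial : ℝ) * E ≤ Real.exp |u| * E := mul_le_mul_of_nonneg_right h8 hE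
  have h13 : |u| ^ (2 * m) / ((2 * m).factorial : ℝ) * (E + 2 * s.card * (Nat.doubleFactorial (2 * m - 1) : ℝ)) =
      |u| ^ (2 * m) / ((2 * m).factorial : ℝ) * E + |u| ^ (2 * m) / ((2 * m).factorial : ℝ) * (2 * s.card * (Nat.doubleFactorial (2 * m - 1) : ℝ)) := by
    ring
  rw [h13, h9] at h2
  linarith

/-- the bound for the frequencies up to `m ^ (1 / 2) / 2` -/
theorem Lam_cos' (m : ℕ) (E : ℝ) (hE : 0 ≤ E) (hmom : ∀ k, 1 ≤ k → k ≤ 2 * m → |Lam s X (fun z => z ^ k)| ≤ E) (hm : 1 ≤ m) (u φ : ℝ)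
    (hu : |u| ≤ Real.sqrt m / 2) :
    |Lam s X (fun x => Real.cos (u * x + φ))| ≤ 2 * E * Real.exp m + 2 * (s.card : ℝ) * (35 / 100) ^ m := by
  refine (Lam_cos s X m E hE hmom hm u φ).trans ?_
  have hm1 : (1 : ℝ) ≤ m := by exact_mod_cast hm
  have hsq : Real.sqrt m ≤ m := by
    rw [Real.sqrt_le_left (by linarith)]
    nlinarith
  apply add_le_add
  · apply mul_le_mul_of_nonneg_left _ (by linarith)
    apply Real.exp_le_exp.2
    have := Real.sqrt_nonneg m
    linarith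
  · apply mul_le_mul_of_nonneg_left _ (by positivity)
    have h1 : u ^ 2 / 2 ≤ m / 8 := by
      have h2 : |u| ^ 2 ≤ (Real.sqrt m / 2) ^ 2 := pow_le_pow_left₀ (abs_nonneg u) hu 2
      rw [sq_abs, div_pow, Real.sq_sqrt (by linarith)] at h2
      linarith
    have h3 : (u ^ 2 / 2) ^ m ≤ (m / 8 : ℝ) ^ m := pow_le_pow_left₀ (by positivity) h1 m
    have h4 : (0 : ℝ) < m.factorial := by exact_mod_cast Nat.factorial_pos m
    have h5 := Real.pow_div_factorial_le_exp (m : ℝ) (by linarith) m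
    have h6 : (Real.exp 1 / 8) ^ m ≤ (35 / 100 : ℝ) ^ m := by
      apply pow_le_pow_left₀ (by positivity)
      have := Real.exp_one_lt_d9
      linarith
    calc (u ^ 2 / 2) ^ m / (m.factorial : ℝ) ≤ (m / 8 : ℝ) ^ m / (m.factorial : ℝ) := div_le_div_of_nonneg_right h3 h4.le
      _ = (1 / 8) ^ m * ((m : ℝ) ^ m / (m.factorial : ℝ)) := by
          rw [div_pow, one_div, inv_pow]
          field_simp
      _ ≤ (1 / 8) ^ m * Real.exp m := mul_le_mul_of_nonneg_left h5 (by positivity)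
      _ = (Real.exp 1 / 8) ^ m := by
          rw [div_pow, div_pow, ← Real.exp_nat_mul, mul_one, one_pow]
          ring
      _ ≤ _ := h6

end Pool.Agent.K4H4.GL
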