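import Pool.Agent.Y57.FD.Mom

/-!
# Moments of sums of independent bounded variables with mean zero
-/

set_option autoImplicit false

namespace Pool.Agent.K4H4.GL

open Finset
open Pool.Agent.Y57.FD.Mom (normal pow_err choose_dfac mean_hom val ev ev_surj res res_surj)

/-- the main term of the moment of order `m` -/
noncomputable def PP (m N : ℕ) : ℝ := if Even m then (Nat.doubleFactorial (m - 1) : ℝ) * (N : ℝ) ^ (m / 2) else 0

theorem PP_bound (m N q : ℕ) (s : ℝ) (hs : 0 ≤ s) (hss : s ^ 2 = q) (hN : N ≤ q) : |PP m N| ≤ (Nat.doubleFactorial (m - 1) : ℝ) * s ^ m := by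
  unfold PP
  split_ifs with h
  · obtain ⟨a, ha⟩ := h
    rw [abs_of_nonneg (by positivity), show m / 2 = a by omega]
    have h1 : s ^ m = (q : ℝ) ^ a := by
      rw [← hss, ← pow_mul]
      congr 1
      omega
    rw [h1]
    apply mul_le_mul_of_nonneg_left _ (Nat.cast_nonneg _)
    exact pow_le_pow_left₀ (Nat.cast_nonneg _) (by exact_mod_cast hN) a
  · rw [abs_zero]
    positivity

/-- the increments of the main term -/
theorem PP_inc (m : ℕ) : ∃ B : ℝ, 0 ≤ B ∧ ∀ (q : ℕ), 1 ≤ q → ∀ s : ℝ, 1 ≤ s → s ^ 2 = q → ∀ N ≤ q,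
    |((m + 2).choose 2 : ℝ) * PP m N - (PP (m + 2) (N + 1) - PP (m + 2) N)| ≤ B * s ^ (m + 2) / s ^ 3 := by
  rcases Nat.even_or_odd m with h | h
  · obtain ⟨k, hk⟩ := h
    obtain ⟨B, hB, hpow⟩ := pow_err k
    refine ⟨(Nat.doubleFactorial (2 * (k + 1) - 1) : ℝ) * B, by positivity, fun q hq s hs hss N hN => ?_⟩
    have hq1 : (1 : ℝ) ≤ q := by exact_mod_cast hq
    have h1 := hpow q hq1 N (Nat.cast_nonneg _) (by exact_mod_cast hN)
    have h2 := choose_dfac k
    have hm : m = 2 * k := by omega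
    subst hm
    unfold PP
    rw [if_pos ⟨k, by omega⟩, if_pos ⟨k + 1, by omega⟩, if_pos ⟨k + 1, by omega⟩, show 2 * k / 2 = k by omega,
      show (2 * k + 2) / 2 = k + 1 by omega, show 2 * k + 2 - 1 = 2 * (k + 1) - 1 by omega]
    have h3 : ((2 * k + 2).choose 2 : ℝ) * ((Nat.doubleFactorial (2 * k - 1) : ℝ) * (N : ℝ) ^ k) -
        ((Nat.doubleFactorial (2 * (k + 1) - 1) : ℝ) * ((N + 1 : ℕ) : ℝ) ^ (k + 1) -
        (Nat.doubleFactorial (2 * (k + 1) - 1) : ℝ) * (N : ℝ) ^ (k + 1)) =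
        -((Nat.doubleFactorial (2 * (k + 1) - 1) : ℝ) * (((N : ℝ) + 1) ^ (k + 1) - (N : ℝ) ^ (k + 1) - (k + 1) * (N : ℝ) ^ k)) := by
      push_cast
      have h2' : ((2 * k + 2).choose 2 : ℝ) * (Nat.doubleFactorial (2 * k - 1) : ℝ) =
          (k + 1) * (Nat.doubleFactorial (2 * (k + 1) - 1) : ℝ) := h2
      linear_combination ((N : ℝ) ^ k) * h2'
    rw [h3, abs_neg, abs_mul, Nat.abs_cast]
    have h4 : B * (q : ℝ) ^ (k + 1) / (q : ℝ) ^ 2 ≤ B * s ^ (2 * k + 2) / s ^ 3 := by
      rw [← hss, ← pow_mul, ← pow_mul]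
      apply div_le_div_of_nonneg_left (by positivity) (by positivity)
      exact pow_le_pow_right₀ hs (by norm_num)
    calc (Nat.doubleFactorial (2 * (k + 1) - 1) : ℝ) * |((N : ℝ) + 1) ^ (k + 1) - (N : ℝ) ^ (k + 1) - (k + 1) * (N : ℝ) ^ k| ≤
        (Nat.doubleFactorial (2 * (k + 1) - 1) : ℝ) * (B * s ^ (2 * k + 2) / s ^ 3) :=
          mul_le_mul_of_nonneg_left (h1.trans h4) (Nat.cast_nonneg _)
      _ = _ := by ring
  · refine ⟨0, le_rfl, fun q hq s hs hss N hN => ?_⟩
    unfold PP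
    have h1 : ¬ Even m := Nat.not_even_iff_odd.2 h
    have h2 : ¬ Even (m + 2) := by
      rw [Nat.even_add]
      simp [h1]
    rw [if_neg h1, if_neg h2, if_neg h2]
    simp

theorem growthG (R : ℝ) (hR : 1 ≤ R) (m : ℕ) : ∃ C : ℝ, 0 ≤ C ∧ ∀ q : ℕ, 1 ≤ q → ∀ s : ℝ, 1 ≤ s → s ^ 2 = q →
    ∀ (A : ℕ → ℕ → ℝ) (e : ℕ → ℝ), (∀ N, A 0 N = 1) →
    (∀ m, 1 ≤ m → A m 0 = 0) → (∀ m N, A m (N + 1) = ∑ j ∈ range (m + 1), (m.choose j : ℝ) * e j * A (m - j) N) →
    e 0 = 1 → e 1 = 0 → |e 2 - 1| ≤ 1 / q → (∀ j, |e j| ≤ R ^ j) →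
    ∀ N ≤ q, |A m N - PP m N| ≤ C * s ^ m / s := by
  induction m using Nat.strong_induction_on with
  | _ m ih =>
    rcases Nat.eq_zero_or_pos m with h0 | h0
    · refine ⟨0, le_rfl, fun q hq s hs hss A e hA0 _ _ _ _ _ _ N _ => ?_⟩
      rw [h0, hA0]
      unfold PP
      simp
    rcases Nat.eq_or_lt_of_le h0 with h1 | h1
    · -- m = 1
      refine ⟨0, le_rfl, fun q hq s hs hss A e hA0 hA00 hrec he0 he1 he2 hej N _ => ?_⟩
      have hm : m = 1 := by omega
      have h2 : ∀ N, A 1 N = 0 := by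
        intro N
        induction N with
        | zero => exact hA00 1 le_rfl
        | succ N ihN =>
          rw [hrec, sum_range_succ, sum_range_succ, range_zero, sum_empty, he0, he1]
          simp [ihN]
      rw [hm, h2]
      unfold PP
      simp
    obtain ⟨m, rfl⟩ : ∃ j, m = j + 2 := ⟨m - 2, by omega⟩
    have hch : ∀ j : ℕ, ∃ C : ℝ, 0 ≤ C ∧ (j < m + 2 → ∀ q : ℕ, 1 ≤ q → ∀ s : ℝ, 1 ≤ s → s ^ 2 = q →
        ∀ (A : ℕ → ℕ → ℝ) (e : ℕ → ℝ), (∀ N, A 0 N = 1) →
        (∀ m, 1 ≤ m → A m 0 = 0) → (∀ m N, A m (N + 1) = ∑ j ∈ range (m + 1), (m.choose j : ℝ) * e j * A (m - j) N) →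
        e 0 = 1 → e 1 = 0 → |e 2 - 1| ≤ 1 / q → (∀ j, |e j| ≤ R ^ j) →
        ∀ N ≤ q, |A j N - PP j N| ≤ C * s ^ j / s) := by
      intro j
      by_cases hj : j < m + 2
      · obtain ⟨C, hC, h⟩ := ih j hj
        exact ⟨C, hC, fun _ => h⟩
      · exact ⟨0, le_refl _, fun h => absurd h hj⟩
    choose C hC0 hC using hch
    obtain ⟨B, hB, hBe⟩ := PP_inc m
    obtain ⟨D, hD⟩ : ∃ D : ℕ → ℝ, D = fun j => (Nat.doubleFactorial (j - 1) : ℝ) + C j := ⟨_, rfl⟩
    have hD0 : ∀ j, 0 ≤ D j := by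
      intro j
      rw [hD]
      have := hC0 j
      positivity
    have hR0 : 0 < R := by linarith
    obtain ⟨E, hE⟩ : ∃ E : ℝ, E = ((m + 2).choose 2 : ℝ) * C m + ((m + 2).choose 2 : ℝ) * D m + B +
      ∑ i ∈ range m, ((m + 2).choose (i + 3) : ℝ) * R ^ (i + 3) * D (m - (i + 1)) := ⟨_, rfl⟩
    have hE0 : 0 ≤ E := by
      rw [hE]
      have h1 := hC0 m
      have h2 := hD0 m
      have h3 : 0 ≤ ∑ i ∈ range m, ((m + 2).choose (i + 3) : ℝ) * R ^ (i + 3) * D (m - (i + 1)) :=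
        sum_nonneg fun i _ => mul_nonneg (by positivity) (hD0 _)
      positivity
    refine ⟨E, hE0, fun q hq s hs hss A e hA0 hA00 hrec he0 he1 he2 hej => ?_⟩
    have hq1 : (1 : ℝ) ≤ q := by exact_mod_cast hq
    have hq0 : (0 : ℝ) < q := by linarith
    have hs0 : 0 < s := by linarith
    have hAb : ∀ j, j < m + 2 → ∀ N ≤ q, |A j N| ≤ D j * s ^ j := by
      intro j hj N hN
      have h1 := hC j hj q hq s hs hss A e hA0 hA00 hrec he0 he1 he2 hej N hN
      have h2 := PP_bound j N q s hs0.le hss hN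
      have h3 : C j * s ^ j / s ≤ C j * s ^ j := div_le_self (mul_nonneg (hC0 j) (by positivity)) hs
      have h4 : |A j N| ≤ |A j N - PP j N| + |PP j N| := by
        have := abs_add_le (A j N - PP j N) (PP j N)
        rwa [sub_add_cancel] at this
      rw [hD]
      show |A j N| ≤ ((Nat.doubleFactorial (j - 1) : ℝ) + C j) * s ^ j
      rw [add_mul]
      linarith
    have hinc : ∀ N ≤ q, |A (m + 2) (N + 1) - A (m + 2) N - (PP (m + 2) (N + 1) - PP (m + 2) N)| ≤ E * s ^ (m + 2) / s ^ 3 := by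
      intro N hN
      have h1 : A (m + 2) (N + 1) = A (m + 2) N + ((m + 2).choose 2 : ℝ) * e 2 * A m N +
          ∑ i ∈ range m, ((m + 2).choose (i + 3) : ℝ) * e (i + 3) * A (m - (i + 1)) N := by
        rw [hrec, sum_range_succ', sum_range_succ', sum_range_succ']
        simp only [zero_add, Nat.choose_zero_right, Nat.cast_one, he0, he1, mul_zero, zero_mul, add_zero, mul_one, one_mul,
          Nat.sub_zero, Nat.add_sub_cancel]
        have h2 : ∀ i ∈ range m, ((m + 2).choose (i + 1 + 1 + 1) : ℝ) * e (i + 1 + 1 + 1) * A (m + 2 - (i + 1 + 1 + 1)) N =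
            ((m + 2).choose (i + 3) : ℝ) * e (i + 3) * A (m - (i + 1)) N := by
          intro i hi
          rw [mem_range] at hi
          rw [show m + 2 - (i + 1 + 1 + 1) = m - (i + 1) by omega]
        rw [sum_congr rfl h2]
        ring
      rw [h1]
      have h2 := hC m (by omega) q hq s hs hss A e hA0 hA00 hrec he0 he1 he2 hej N hN
      have h3 := hAb m (by omega) N hN
      have h4 := hBe q hq s hs hss N hN
      have h5 : |∑ i ∈ range m, ((m + 2).choose (i + 3) : ℝ) * e (i + 3) * A (m - (i + 1)) N| ≤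
          (∑ i ∈ range m, ((m + 2).choose (i + 3) : ℝ) * R ^ (i + 3) * D (m - (i + 1))) * s ^ (m + 2) / s ^ 3 := by
        rw [mul_div_assoc, sum_mul]
        refine (abs_sum_le_sum_abs _ _).trans (sum_le_sum fun i hi => ?_)
        rw [mem_range] at hi
        rw [abs_mul, abs_mul, Nat.abs_cast]
        have h6 := hAb (m - (i + 1)) (by omega) N hN
        have h7 : s ^ (m - (i + 1)) ≤ s ^ (m + 2) / s ^ 3 := by
          rw [le_div_iff₀ (by positivity), ← pow_add]
          exact pow_le_pow_right₀ hs (by omega)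
        calc ((m + 2).choose (i + 3) : ℝ) * |e (i + 3)| * |A (m - (i + 1)) N| ≤
            ((m + 2).choose (i + 3) : ℝ) * R ^ (i + 3) * (D (m - (i + 1)) * s ^ (m - (i + 1))) := by
              apply mul_le_mul _ h6 (abs_nonneg _) (by positivity)
              exact mul_le_mul_of_nonneg_left (hej _) (by positivity)
          _ ≤ ((m + 2).choose (i + 3) : ℝ) * R ^ (i + 3) * (D (m - (i + 1)) * (s ^ (m + 2) / s ^ 3)) := by
              apply mul_le_mul_of_nonneg_left _ (by positivity)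
              exact mul_le_mul_of_nonneg_left h7 (hD0 _)
          _ = _ := by ring
      have e1 : A (m + 2) N + ((m + 2).choose 2 : ℝ) * e 2 * A m N +
          ∑ i ∈ range m, ((m + 2).choose (i + 3) : ℝ) * e (i + 3) * A (m - (i + 1)) N - A (m + 2) N - (PP (m + 2) (N + 1) - PP (m + 2) N) =
          ((m + 2).choose 2 : ℝ) * (A m N - PP m N) + ((m + 2).choose 2 : ℝ) * ((e 2 - 1) * A m N) +
          (((m + 2).choose 2 : ℝ) * PP m N - (PP (m + 2) (N + 1) - PP (m + 2) N)) +
          ∑ i ∈ range m, ((m + 2).choose (i + 3) : ℝ) * e (i + 3) * A (m - (i + 1)) N := by ring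
      rw [e1]
      have h6 : |((m + 2).choose 2 : ℝ) * (A m N - PP m N)| ≤ ((m + 2).choose 2 : ℝ) * C m * s ^ (m + 2) / s ^ 3 := by
        rw [abs_mul, Nat.abs_cast]
        have h7 : C m * s ^ m / s = C m * s ^ (m + 2) / s ^ 3 := by
          rw [pow_add]
          field_simp
        rw [h7] at h2
        calc _ ≤ ((m + 2).choose 2 : ℝ) * (C m * s ^ (m + 2) / s ^ 3) := mul_le_mul_of_nonneg_left h2 (Nat.cast_nonneg _)
          _ = _ := by ring
      have h7 : |((m + 2).choose 2 : ℝ) * ((e 2 - 1) * A m N)| ≤ ((m + 2).choose 2 : ℝ) * D m * s ^ (m + 2) / s ^ 3 := by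
        rw [abs_mul, Nat.abs_cast, abs_mul]
        have h8 : |e 2 - 1| * |A m N| ≤ 1 / q * (D m * s ^ m) := mul_le_mul he2 h3 (abs_nonneg _) (by positivity)
        have h9 : 1 / (q : ℝ) * (D m * s ^ m) ≤ D m * s ^ (m + 2) / s ^ 3 := by
          rw [← hss, div_mul_eq_mul_div, one_mul, div_le_div_iff₀ (by positivity) (by positivity)]
          have h10 : D m * s ^ (m + 2) * s ^ 2 = D m * (s ^ m * s ^ 4) := by
            rw [pow_add]
            ring
          have h11 : D m * s ^ m * s ^ 3 = D m * (s ^ m * s ^ 3) := by ring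
          rw [h10, h11]
          apply mul_le_mul_of_nonneg_left _ (hD0 m)
          apply mul_le_mul_of_nonneg_left _ (by positivity)
          exact pow_le_pow_right₀ hs (by norm_num)
        calc _ ≤ ((m + 2).choose 2 : ℝ) * (D m * s ^ (m + 2) / s ^ 3) := mul_le_mul_of_nonneg_left (h8.trans h9) (Nat.cast_nonneg _)
          _ = _ := by ring
      refine (abs_add_le _ _).trans ((add_le_add ((abs_add_le _ _).trans (add_le_add ((abs_add_le _ _).trans (add_le_add h6 h7)) h4)) h5).trans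
        (le_of_eq ?_))
      rw [hE]
      ring
    have hsum : ∀ N ≤ q, |A (m + 2) N - PP (m + 2) N| ≤ N * (E * s ^ (m + 2) / s ^ 3) := by
      intro N
      induction N with
      | zero =>
        intro _
        rw [hA00 _ (by omega)]
        unfold PP
        have : (m + 2) / 2 ≠ 0 := by omega
        simp [this]
      | succ N ihN =>
        intro hN
        have h1 := ihN (by omega)
        have h2 := hinc N (by omega)
        have h3 : A (m + 2) (N + 1) - PP (m + 2) (N + 1) =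
            (A (m + 2) N - PP (m + 2) N) + (A (m + 2) (N + 1) - A (m + 2) N - (PP (m + 2) (N + 1) - PP (m + 2) N)) := by ring
        rw [h3]
        refine (abs_add_le _ _).trans ((add_le_add h1 h2).trans (le_of_eq ?_))
        push_cast
        ring
    intro N hN
    refine (hsum N hN).trans ?_
    have hNq : (N : ℝ) ≤ q := by exact_mod_cast hN
    calc (N : ℝ) * (E * s ^ (m + 2) / s ^ 3) ≤ q * (E * s ^ (m + 2) / s ^ 3) := mul_le_mul_of_nonneg_right hNq (by positivity)
      _ = E * s ^ (m + 2) / s := by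
          rw [← hss]
          field_simp

end Pool.Agent.K4H4.GL
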