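import Mathlib

/-!
# A kernel with compactly supported Fourier transform
-/

set_option autoImplicit false

namespace Pool.Agent.K4H4.GL

open MeasureTheory Real

/-- the Fejer kernel -/
noncomputable def kk (x : ℝ) : ℝ := ∫ t in (0 : ℝ)..1, (1 - t) * Real.cos (t * x)

theorem kk_continuous : Continuous kk := by
  unfold kk
  apply intervalIntegral.continuous_parametric_intervalIntegral_of_continuous'
  fun_prop

theorem kk_eq (x : ℝ) (hx : x ≠ 0) : kk x = (1 - Real.cos x) / x ^ 2 := by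
  unfold kk
  have h1 : ∀ t ∈ Set.uIcc (0 : ℝ) 1, HasDerivAt
      (fun t => (1 - t) * Real.sin (t * x) / x - Real.cos (t * x) / x ^ 2)
      ((1 - t) * Real.cos (t * x)) t := by
    intro t _
    have e1 : HasDerivAt (fun t : ℝ => t * x) x t := by
      simpa using (hasDerivAt_id t).mul_const x
    have e2 : HasDerivAt (fun t : ℝ => Real.sin (t * x)) (Real.cos (t * x) * x) t := e1.sin
    have e3 : HasDerivAt (fun t : ℝ => Real.cos (t * x)) (-Real.sin (t * x) * x) t := e1.cos
    have e4 : HasDerivAt (fun t : ℝ => 1 - t) (-1) t := by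
      simpa using (hasDerivAt_id t).const_sub 1
    have e5 := ((e4.mul e2).div_const x).sub (e3.div_const (x ^ 2))
    refine e5.congr_deriv ?_
    field_simp
    ring
  rw [intervalIntegral.integral_eq_sub_of_hasDerivAt h1 (Continuous.intervalIntegrable (by fun_prop) _ _)]
  simp only [sub_self, zero_mul, one_mul, zero_div, Real.sin_zero, mul_zero, Real.cos_zero, sub_zero]
  ring

theorem kk_zero : kk 0 = 1 / 2 := by
  unfold kk
  simp only [mul_zero, Real.cos_zero, mul_one]
  have h1 : ∀ t ∈ Set.uIcc (0 : ℝ) 1, HasDerivAt (fun t : ℝ => t - t ^ 2 / 2) (1 - t) t := by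
    intro t _
    have e5 := (hasDerivAt_id t).sub ((hasDerivAt_pow 2 t).div_const 2)
    refine e5.congr_deriv ?_
    norm_num
  rw [intervalIntegral.integral_eq_sub_of_hasDerivAt h1 (Continuous.intervalIntegrable (by fun_prop) _ _)]
  norm_num

theorem kk_nonneg (x : ℝ) : 0 ≤ kk x := by
  by_cases hx : x = 0
  · rw [hx, kk_zero]
    norm_num
  · rw [kk_eq x hx]
    apply div_nonneg
    · linarith [Real.cos_le_one x]
    · positivity

theorem kk_le_half (x : ℝ) : kk x ≤ 1 / 2 := by
  rw [← kk_zero]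
  unfold kk
  apply intervalIntegral.integral_mono_on (by norm_num) (Continuous.intervalIntegrable (by fun_prop) _ _)
    (Continuous.intervalIntegrable (by fun_prop) _ _)
  intro t ht
  apply mul_le_mul_of_nonneg_left _ (by linarith [ht.2])
  rw [mul_zero, Real.cos_zero]
  exact Real.cos_le_one _

theorem kk_abs (x : ℝ) : |kk x| ≤ 1 / 2 := by
  rw [abs_of_nonneg (kk_nonneg x)]
  exact kk_le_half x

theorem kk_quarter (x : ℝ) (hx : |x| ≤ 1) : 1 / 4 ≤ kk x := by
  have h1 : (∫ t in (0 : ℝ)..1, (1 - t) * (1 / 2 : ℝ)) = 1 / 4 := by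
    have h1 : ∀ t ∈ Set.uIcc (0 : ℝ) 1, HasDerivAt (fun t : ℝ => (t - t ^ 2 / 2) * (1 / 2)) ((1 - t) * (1 / 2 : ℝ)) t := by
      intro t _
      have e5 := ((hasDerivAt_id t).sub ((hasDerivAt_pow 2 t).div_const 2)).mul_const (1 / 2 : ℝ)
      refine e5.congr_deriv ?_
      norm_num
    rw [intervalIntegral.integral_eq_sub_of_hasDerivAt h1 (Continuous.intervalIntegrable (by fun_prop) _ _)]
    norm_num
  rw [← h1]
  unfold kk
  apply intervalIntegral.integral_mono_on (by norm_num)
    (Continuous.intervalIntegrable (by fun_prop) _ _) (Continuous.intervalIntegrable (by fun_prop) _ _)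
  intro t ht
  apply mul_le_mul_of_nonneg_left _ (by linarith [ht.2])
  have h2 := Real.one_sub_sq_div_two_le_cos (x := t * x)
  have h3 : (t * x) ^ 2 ≤ 1 := by
    rw [mul_pow]
    have h4 : x ^ 2 ≤ 1 := by
      rw [← sq_abs]; exact pow_le_one₀ (abs_nonneg x) hx
    have h5 : t ^ 2 ≤ 1 := pow_le_one₀ ht.1 ht.2
    calc t ^ 2 * x ^ 2 ≤ 1 * 1 := by gcongr
      _ = 1 := by norm_num
  linarith

/-- upper bound -/
theorem kk_upper (x : ℝ) : kk x ≤ 20 / (|x| + π) ^ 2 := by
  have hpi := Real.pi_pos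
  have hpi4 := Real.pi_lt_d2
  have ha := abs_nonneg x
  rcases le_or_gt |x| π with h | h
  · refine (kk_le_half x).trans ?_
    rw [le_div_iff₀ (by positivity)]
    have h2 : (|x| + π) ^ 2 ≤ (2 * π) ^ 2 := pow_le_pow_left₀ (by positivity) (by linarith) 2
    nlinarith
  · have hx : x ≠ 0 := by
      intro h0
      rw [h0, abs_zero] at h
      linarith
    rw [kk_eq x hx, ← sq_abs x, div_le_div_iff₀ (by positivity) (by positivity)]
    have h1 : 1 - Real.cos x ≤ 2 := by linarith [Real.neg_one_le_cos x]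
    have h2 : (|x| + π) ^ 2 ≤ (2 * |x|) ^ 2 := pow_le_pow_left₀ (by positivity) (by linarith) 2
    have h3 : 0 ≤ 1 - Real.cos x := by linarith [Real.cos_le_one x]
    calc (1 - Real.cos x) * (|x| + π) ^ 2 ≤ 2 * (2 * |x|) ^ 2 := mul_le_mul h1 h2 (by positivity) (by norm_num)
      _ ≤ 20 * |x| ^ 2 := by nlinarith [sq_nonneg |x|]

/-- the majorant `Φ` -/
noncomputable def Ph (x : ℝ) : ℝ := kk x + kk (x - π)

theorem Ph_lower (x : ℝ) : 2 / (|x| + π) ^ 2 ≤ Ph x := by
  unfold Ph
  have hpi := Real.pi_pos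
  have hpi3 := Real.pi_gt_three
  have ha := abs_nonneg x
  by_cases h0 : x = 0
  · rw [h0, kk_zero, abs_zero, zero_add]
    have h1 := kk_nonneg (0 - π)
    have h2 : 2 / π ^ 2 ≤ 1 / 2 := by
      rw [div_le_div_iff₀ (by positivity) (by norm_num)]
      nlinarith
    linarith
  by_cases h1 : x = π
  · rw [h1, sub_self, kk_zero, abs_of_pos hpi]
    have h1 := kk_nonneg π
    have h2 : 2 / (π + π) ^ 2 ≤ 1 / 2 := by
      rw [div_le_div_iff₀ (by positivity) (by norm_num)]
      nlinarith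
    linarith
  rw [kk_eq x h0, kk_eq (x - π) (sub_ne_zero.2 h1), Real.cos_sub_pi]
  have h2 : (1 - Real.cos x) / (|x| + π) ^ 2 ≤ (1 - Real.cos x) / x ^ 2 := by
    apply div_le_div_of_nonneg_left (by linarith [Real.cos_le_one x]) (by positivity)
    rw [← sq_abs x]
    exact pow_le_pow_left₀ ha (by linarith) 2
  have h3 : (1 - -Real.cos x) / (|x| + π) ^ 2 ≤ (1 - -Real.cos x) / (x - π) ^ 2 := by
    have hne : 0 < (x - π) ^ 2 := by
      have := sub_ne_zero.2 h1
      positivity
    apply div_le_div_of_nonneg_left (by linarith [Real.neg_one_le_cos x]) hne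
    rw [← sq_abs (x - π)]
    apply pow_le_pow_left₀ (abs_nonneg _)
    have := abs_sub x π
    rwa [abs_of_pos hpi] at this
  have h4 : 2 / (|x| + π) ^ 2 = (1 - Real.cos x) / (|x| + π) ^ 2 + (1 - -Real.cos x) / (|x| + π) ^ 2 := by
    rw [← add_div]
    congr 1
    ring
  rw [h4]
  linarith

theorem Ph_nonneg (x : ℝ) : 0 ≤ Ph x := add_nonneg (kk_nonneg _) (kk_nonneg _)

/-- the integral of the square of the kernel -/
noncomputable def Gi (h : ℝ) : ℝ := ∫ y in (0 : ℝ)..h, kk y ^ 2

theorem Gi_sub (a b : ℝ) : Gi b - Gi a = ∫ y in a..b, kk y ^ 2 := by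
  unfold Gi
  have hc : Continuous (fun y => kk y ^ 2) := kk_continuous.pow 2
  exact intervalIntegral.integral_interval_sub_left (hc.intervalIntegrable _ _) (hc.intervalIntegrable _ _)

theorem Gi_mono {a b : ℝ} (h : a ≤ b) : Gi a ≤ Gi b := by
  have h1 := Gi_sub a b
  have h2 : 0 ≤ ∫ y in a..b, kk y ^ 2 := intervalIntegral.integral_nonneg h fun _ _ => sq_nonneg _
  linarith

theorem kk_neg (x : ℝ) : kk (-x) = kk x := by
  unfold kk
  apply intervalIntegral.integral_congr
  intro t _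
  simp only
  rw [mul_neg, Real.cos_neg]

theorem Gi_neg (h : ℝ) : Gi (-h) = -Gi h := by
  unfold Gi
  have h1 := intervalIntegral.integral_comp_neg (a := 0) (b := h) (fun y => kk y ^ 2)
  simp only [kk_neg, neg_zero] at h1
  rw [h1, intervalIntegral.integral_symm]

/-- the tails -/
theorem Gi_tail (a b : ℝ) (ha : 0 ≤ a) (hab : a ≤ b) : Gi b - Gi a ≤ 43 / (a + π) ^ 2 := by
  have hpi := Real.pi_pos
  have hpi3 := Real.pi_gt_three
  rw [Gi_sub]
  have hder : ∀ y ∈ Set.uIcc a b, HasDerivAt (fun y : ℝ => -(400 / 3) * (y + π) ^ (-3 : ℤ)) (400 * (y + π) ^ (-4 : ℤ)) y := by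
    intro y hy
    rw [Set.uIcc_of_le hab] at hy
    have hy0 : y + π ≠ 0 := by
      have := hy.1
      linarith
    have e1 : HasDerivAt (fun y : ℝ => y + π) 1 y := (hasDerivAt_id y).add_const π
    have e2 := (hasDerivAt_zpow (-3) (y + π) (Or.inl hy0)).comp y e1
    have e3 := e2.const_mul (-(400 / 3 : ℝ))
    refine e3.congr_deriv ?_
    push_cast
    norm_num
    ring
  have hci : ContinuousOn (fun y : ℝ => 400 * (y + π) ^ (-4 : ℤ)) (Set.uIcc a b) := by
    rw [Set.uIcc_of_le hab]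
    apply ContinuousOn.mul continuousOn_const
    apply ContinuousOn.zpow₀ (by fun_prop)
    intro y hy
    left
    have := hy.1
    linarith
  have h1 : ∫ y in a..b, kk y ^ 2 ≤ ∫ y in a..b, 400 * (y + π) ^ (-4 : ℤ) := by
    apply intervalIntegral.integral_mono_on hab ((kk_continuous.pow 2).intervalIntegrable _ _) hci.intervalIntegrable
    intro y hy
    have hy0 : 0 ≤ y := ha.trans hy.1
    have h2 := kk_upper y
    rw [abs_of_nonneg hy0] at h2
    have h3 := pow_le_pow_left₀ (kk_nonneg y) h2 2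
    refine h3.trans (le_of_eq ?_)
    rw [div_pow, ← pow_mul, zpow_neg, div_eq_mul_inv]
    norm_num
  rw [intervalIntegral.integral_eq_sub_of_hasDerivAt hder hci.intervalIntegrable] at h1
  refine h1.trans ?_
  have hb0 : 0 < b + π := by linarith
  have ha0 : 0 < a + π := by linarith
  have h4 : 0 ≤ (400 / 3 : ℝ) * (b + π) ^ (-3 : ℤ) := by positivity
  have h5 : (400 / 3 : ℝ) * (a + π) ^ (-3 : ℤ) ≤ 43 / (a + π) ^ 2 := by
    rw [zpow_neg, ← div_eq_mul_inv, div_le_div_iff₀ (by positivity) (by positivity)]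
    have h6 : (a + π) ^ (3 : ℤ) = (a + π) ^ 2 * (a + π) := by
      norm_cast
    rw [h6]
    have h7 : (400 / 3 : ℝ) ≤ 43 * (a + π) := by
      have := Real.pi_gt_d2
      linarith
    nlinarith [sq_nonneg (a + π), mul_pos ha0 ha0]
  linarith

end Pool.Agent.K4H4.GL
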