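import Pool.Agent.K4H4.GL.Smooth

/-!
# From moments to the distribution function
-/

set_option autoImplicit false

namespace Pool.Agent.K4H4.GL

open MeasureTheory Real ProbabilityTheory Finset

theorem exists_kap : ∃ κ : ℝ, 1 / 16 ≤ κ ∧ ∀ h : ℝ, 0 ≤ h → Gi h ≤ κ ∧ κ - Gi h ≤ 43 / (h + π) ^ 2 := by
  have hpi := Real.pi_pos
  have hG0 : Gi 0 = 0 := by unfold Gi; simp
  have hbdd : BddAbove (Gi '' Set.Ici 0) := by
    refine ⟨43 / (0 + π) ^ 2, ?_⟩
    rintro _ ⟨h, hh, rfl⟩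
    have h1 := Gi_tail 0 h le_rfl hh
    rw [hG0, sub_zero] at h1
    exact h1
  have hne : (Gi '' Set.Ici 0).Nonempty := ⟨Gi 0, 0, Set.self_mem_Ici, rfl⟩
  refine ⟨sSup (Gi '' Set.Ici 0), ?_, ?_⟩
  · have h1 : Gi 1 ≤ sSup (Gi '' Set.Ici 0) := le_csSup hbdd ⟨1, Set.mem_Ici.2 zero_le_one, rfl⟩
    refine le_trans ?_ h1
    unfold Gi
    have h2 : (∫ _y in (0 : ℝ)..1, (1 / 16 : ℝ)) ≤ ∫ y in (0 : ℝ)..1, kk y ^ 2 := by
      apply intervalIntegral.integral_mono_on zero_le_one (Continuous.intervalIntegrable (by fun_prop) _ _)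
        ((kk_continuous.pow 2).intervalIntegrable _ _)
      intro y hy
      have h3 := kk_quarter y (by rw [abs_of_nonneg hy.1]; exact hy.2)
      show (1 / 16 : ℝ) ≤ kk y ^ 2
      nlinarith
    simpa using h2
  · intro h hh
    refine ⟨le_csSup hbdd ⟨h, hh, rfl⟩, ?_⟩
    rw [sub_le_iff_le_add]
    apply csSup_le hne
    rintro _ ⟨h', hh', rfl⟩
    rcases le_or_gt h' h with h1 | h1
    · have h2 := Gi_mono h1
      have h3 : 0 ≤ 43 / (h + π) ^ 2 := by positivity
      linarith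
    · have h2 := Gi_tail h h' hh h1.le
      linarith

/-- the smoothed indicator function is close to the indicator function -/
theorem ind_approx (κ : ℝ) (hκ : 1 / 16 ≤ κ) (hκ2 : ∀ h : ℝ, 0 ≤ h → Gi h ≤ κ ∧ κ - Gi h ≤ 43 / (h + π) ^ 2)
    (T a b x : ℝ) (hT : 0 < T) (hab : a ≤ b) :
    |(if a ≤ x ∧ x ≤ b then (1 : ℝ) else 0) - 1 / (2 * κ) * (Gi (T * (x - a)) - Gi (T * (x - b)))| ≤
      172 * (Ph (T * (x - a)) + Ph (T * (x - b))) := by
  have hpi := Real.pi_pos
  have hκ0 : 0 < κ := by linarith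
  have hk8 : 1 / (2 * κ) ≤ 8 := by
    rw [div_le_iff₀ (by positivity)]
    linarith
  have hk0 : 0 < 1 / (2 * κ) := by positivity
  -- the tails are bounded by Ph
  have htail : ∀ y : ℝ, 43 / (|y| + π) ^ 2 ≤ 43 / 2 * Ph y := by
    intro y
    have h1 := Ph_lower y
    have h2 : 43 / (|y| + π) ^ 2 = 43 / 2 * (2 / (|y| + π) ^ 2) := by ring
    rw [h2]
    linarith
  have hG : ∀ y : ℝ, 0 ≤ κ - Gi |y| ∧ κ - Gi |y| ≤ 43 / 2 * Ph y := by
    intro y
    obtain ⟨h1, h2⟩ := hκ2 |y| (abs_nonneg y)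
    exact ⟨by linarith, h2.trans (htail y)⟩
  obtain ⟨ha1, ha2⟩ := hG (T * (x - a))
  obtain ⟨hb1, hb2⟩ := hG (T * (x - b))
  have hPa := Ph_nonneg (T * (x - a))
  have hPb := Ph_nonneg (T * (x - b))
  have key : ∀ z : ℝ, |z| ≤ (κ - Gi |T * (x - a)|) + (κ - Gi |T * (x - b)|) → 
      |1 / (2 * κ) * z| ≤ 172 * (Ph (T * (x - a)) + Ph (T * (x - b))) := by
    intro z hz
    rw [abs_mul, abs_of_pos hk0]
    calc 1 / (2 * κ) * |z| ≤ 8 * (43 / 2 * Ph (T * (x - a)) + 43 / 2 * Ph (T * (x - b))) :=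
          mul_le_mul hk8 (by linarith) (abs_nonneg _) (by norm_num)
      _ = _ := by ring
  by_cases h1 : x < a
  · rw [if_neg (fun h => absurd h.1 (not_le.2 h1)), zero_sub, ← mul_neg]
    apply key
    have e1 : T * (x - a) ≤ 0 := mul_nonpos_of_nonneg_of_nonpos hT.le (by linarith)
    have e2 : T * (x - b) ≤ 0 := mul_nonpos_of_nonneg_of_nonpos hT.le (by linarith)
    rw [abs_of_nonpos e1, abs_of_nonpos e2] at *
    have e3 : Gi (T * (x - a)) = -Gi (-(T * (x - a))) := by rw [Gi_neg, neg_neg]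
    have e4 : Gi (T * (x - b)) = -Gi (-(T * (x - b))) := by rw [Gi_neg, neg_neg]
    rw [e3, e4, abs_le]
    have e5 : Gi (-(T * (x - a))) ≤ Gi (-(T * (x - b))) := Gi_mono (by
      have : T * (x - b) ≤ T * (x - a) := mul_le_mul_of_nonneg_left (by linarith) hT.le
      linarith)
    constructor <;> linarith
  · by_cases h2 : b < x
    · rw [if_neg (fun h => absurd h.2 (not_le.2 h2)), zero_sub, ← mul_neg]
      apply key
      have e1 : 0 ≤ T * (x - a) := mul_nonneg hT.le (by linarith)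
      have e2 : 0 ≤ T * (x - b) := mul_nonneg hT.le (by linarith)
      rw [abs_of_nonneg e1, abs_of_nonneg e2] at *
      have e5 : Gi (T * (x - b)) ≤ Gi (T * (x - a)) := Gi_mono (mul_le_mul_of_nonneg_left (by linarith) hT.le)
      rw [abs_le]
      constructor <;> linarith
    · rw [if_pos ⟨not_lt.1 h1, not_lt.1 h2⟩]
      have e0 : 1 - 1 / (2 * κ) * (Gi (T * (x - a)) - Gi (T * (x - b))) = 1 / (2 * κ) * (2 * κ - (Gi (T * (x - a)) - Gi (T * (x - b)))) := by
        field_simp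
      rw [e0]
      apply key
      have e1 : 0 ≤ T * (x - a) := mul_nonneg hT.le (by linarith [not_lt.1 h1])
      have e2 : T * (x - b) ≤ 0 := mul_nonpos_of_nonneg_of_nonpos hT.le (by linarith [not_lt.1 h2])
      rw [abs_of_nonneg e1, abs_of_nonpos e2] at *
      have e4 : Gi (T * (x - b)) = -Gi (-(T * (x - b))) := by rw [Gi_neg, neg_neg]
      rw [e4, abs_le]
      constructor <;> linarith

section Points

variable {ι : Type} (s : Finset ι) (X : ι → ℝ)

open Classical in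
/-- the count in an interval -/
theorem interval_count (U η : ℝ) (hη : ∀ u φ : ℝ, |u| ≤ U → |Lam s X (fun x => Real.cos (u * x + φ))| ≤ η)
    (T a b : ℝ) (hT0 : 0 < T) (hT : 2 * T ≤ U) (hab : a ≤ b) :
    |((s.filter (fun i => a ≤ X i ∧ X i ≤ b)).card : ℝ) - s.card * (gaussianReal 0 1).real (Set.Icc a b)| ≤
      8 * (T * (η * |b - a|)) + 688 * η + 2752 * (s.card : ℝ) / T := by
  have hη0 : 0 ≤ η := (abs_nonneg _).trans (hη 0 0 (by rw [abs_zero]; linarith))
  obtain ⟨κ, hκ, hκ2⟩ := exists_kap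
  have hκ0 : 0 < κ := by linarith
  have hk8 : 1 / (2 * κ) ≤ 8 := by
    rw [div_le_iff₀ (by positivity)]
    linarith
  have hk0 : 0 < 1 / (2 * κ) := by positivity
  obtain ⟨I, hI⟩ : ∃ I : ℝ → ℝ, I = fun x => if a ≤ x ∧ x ≤ b then (1 : ℝ) else 0 := ⟨_, rfl⟩
  obtain ⟨g, hg⟩ : ∃ g : ℝ → ℝ, g = fun x => 1 / (2 * κ) * (Gi (T * (x - a)) - Gi (T * (x - b))) := ⟨_, rfl⟩
  obtain ⟨Ψ, hΨ⟩ : ∃ Ψ : ℝ → ℝ, Ψ = fun x => Ph (T * (x - a)) + Ph (T * (x - b)) := ⟨_, rfl⟩
  have hkc := kk_continuous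
  have hGc : Continuous Gi := by
    unfold Gi
    exact intervalIntegral.continuous_primitive (fun a b => (kk_continuous.pow 2).intervalIntegrable a b) 0
  have hIg : ∀ x, |I x - g x| ≤ 172 * Ψ x := by
    intro x
    rw [hI, hg, hΨ]
    exact ind_approx κ hκ hκ2 T a b x hT0 hab
  have hΨb : ∀ x, |Ψ x| ≤ 2 := by
    intro x
    rw [hΨ]
    show |Ph (T * (x - a)) + Ph (T * (x - b))| ≤ 2
    unfold Ph
    rw [abs_of_nonneg (by linarith [kk_nonneg (T * (x - a)), kk_nonneg (T * (x - a) - π), kk_nonneg (T * (x - b)), kk_nonneg (T * (x - b) - π)])]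
    linarith [kk_le_half (T * (x - a)), kk_le_half (T * (x - a) - π), kk_le_half (T * (x - b)), kk_le_half (T * (x - b) - π)]
  have hPhc : Continuous Ph := by
    unfold Ph
    fun_prop
  have hΨi : Integrable Ψ (gaussianReal 0 1) := by
    apply int_bdd _ 2 hΨb
    rw [hΨ]
    fun_prop
  have hIm : I = Set.indicator (Set.Icc a b) (fun _ => (1 : ℝ)) := by
    rw [hI]
    funext x
    rw [Set.indicator_apply]
    rfl
  have hIi : Integrable I (gaussianReal 0 1) := by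
    rw [hIm]
    exact (integrable_const (1 : ℝ)).indicator measurableSet_Icc
  have hIint : ∫ z, I z ∂(gaussianReal 0 1) = (gaussianReal 0 1).real (Set.Icc a b) := by
    rw [hIm, integral_indicator measurableSet_Icc, setIntegral_const, smul_eq_mul, mul_one]
  have hgi : Integrable g (gaussianReal 0 1) := by
    have h1 : ∀ x, |g x| ≤ 1 + 172 * 2 := by
      intro x
      have h2 := hIg x
      have h3 : |I x| ≤ 1 := by
        rw [hI]
        show |(if a ≤ x ∧ x ≤ b then (1 : ℝ) else 0)| ≤ 1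
        split_ifs <;> simp
      have h4 : |g x| ≤ |I x| + |I x - g x| := by
        have := abs_sub (I x) (I x - g x)
        rwa [sub_sub_cancel] at this
      have h5 := hΨb x
      rw [abs_le] at h5
      linarith [h5.2]
    apply int_bdd _ _ h1
    rw [hg]
    fun_prop
  have hIg' : Integrable (fun x => I x - g x) (gaussianReal 0 1) := hIi.sub hgi
  have hcount : ((s.filter (fun i => a ≤ X i ∧ X i ≤ b)).card : ℝ) = ∑ i ∈ s, I (X i) := by
    rw [hI, card_filter]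
    push_cast
    rfl
  have hn : (0 : ℝ) ≤ s.card := Nat.cast_nonneg _
  rw [hcount, ← hIint]
  have h1 : ∑ i ∈ s, I (X i) - s.card * ∫ z, I z ∂(gaussianReal 0 1) = Lam s X g + Lam s X (fun x => I x - g x) := by
    rw [← Lam_add s X hgi hIg']
    have e : (fun z => g z + (I z - g z)) = I := by
      funext z
      ring
    rw [e]
    rfl
  have h2 : |Lam s X (fun x => I x - g x)| ≤ 172 * (|Lam s X Ψ| + 2 * s.card * |∫ z, Ψ z ∂(gaussianReal 0 1)|) := by
    unfold Lam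
    have h3 : |∑ i ∈ s, (I (X i) - g (X i))| ≤ 172 * ∑ i ∈ s, Ψ (X i) := by
      rw [mul_sum]
      exact (abs_sum_le_sum_abs _ _).trans (sum_le_sum fun i _ => hIg _)
    have h4 : |∫ z, (I z - g z) ∂(gaussianReal 0 1)| ≤ 172 * ∫ z, Ψ z ∂(gaussianReal 0 1) := by
      rw [← integral_const_mul]
      refine (abs_integral_le_integral_abs).trans ?_
      apply integral_mono hIg'.abs (hΨi.const_mul _)
      intro z
      exact hIg z
    refine (abs_sub _ _).trans ?_
    rw [abs_mul, abs_of_nonneg hn]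
    have h5 : ∑ i ∈ s, Ψ (X i) ≤ |∑ i ∈ s, Ψ (X i) - s.card * ∫ z, Ψ z ∂(gaussianReal 0 1)| + s.card * |∫ z, Ψ z ∂(gaussianReal 0 1)| := by
      have h6 := le_abs_self (∑ i ∈ s, Ψ (X i) - s.card * ∫ z, Ψ z ∂(gaussianReal 0 1))
      have h7 := mul_le_mul_of_nonneg_left (le_abs_self (∫ z, Ψ z ∂(gaussianReal 0 1))) hn
      linarith
    have h8 := mul_le_mul_of_nonneg_left (h4.trans (mul_le_mul_of_nonneg_left (le_abs_self _) (by norm_num))) hn
    nlinarith
  have h3 : |Lam s X g| ≤ 8 * (T * (η * |b - a|)) := by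
    rw [hg, Lam_const_mul, abs_mul, abs_of_pos hk0]
    exact mul_le_mul hk8 (Lam_Gi s X U η hη T a b hT0 hT) (abs_nonneg _) (by norm_num)
  have hPhi : ∀ c : ℝ, Integrable (fun x => Ph (T * (x - c))) (gaussianReal 0 1) := by
    intro c
    apply int_bdd (by fun_prop) 1
    intro x
    unfold Ph
    rw [abs_of_nonneg (add_nonneg (kk_nonneg _) (kk_nonneg _))]
    linarith [kk_le_half (T * (x - c)), kk_le_half (T * (x - c) - π)]
  have h4 : |Lam s X Ψ| ≤ 4 * η := by
    rw [hΨ, Lam_add s X (hPhi a) (hPhi b)]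
    have h5 := Lam_Ph s X U η hη T a hT0 hT
    have h6 := Lam_Ph s X U η hη T b hT0 hT
    exact (abs_add_le _ _).trans (by linarith)
  have h5 : |∫ z, Ψ z ∂(gaussianReal 0 1)| ≤ 8 / T := by
    rw [hΨ, integral_add (hPhi a) (hPhi b)]
    have h6 := gauss_Ph T a hT0
    have h7 := gauss_Ph T b hT0
    refine (abs_add_le _ _).trans ?_
    have h8 : 8 / T = 4 / T + 4 / T := by ring
    linarith
  rw [h1]
  refine (abs_add_le _ _).trans ?_
  have h6 : 2 * (s.card : ℝ) * |∫ z, Ψ z ∂(gaussianReal 0 1)| ≤ 2 * s.card * (8 / T) := mul_le_mul_of_nonneg_left h5 (by positivity)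
  have h7 : 2752 * (s.card : ℝ) / T = 172 * (2 * s.card * (8 / T)) := by ring
  rw [h7]
  linarith

end Points

end Pool.Agent.K4H4.GL
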