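import Pool.Agent.K4H4.GL.Kern
import Pool.Agent.K4H4.ST.Gauss

/-!
# The difference of a finite point distribution and the normal law
-/

set_option autoImplicit false

namespace Pool.Agent.K4H4.GL

open MeasureTheory Real ProbabilityTheory Finset

variable {ι : Type} (s : Finset ι) (X : ι → ℝ)

/-- the difference between the sum over the points and the integral -/
noncomputable def Lam (f : ℝ → ℝ) : ℝ := ∑ i ∈ s, f (X i) - (s.card : ℝ) * ∫ z, f z ∂(gaussianReal 0 1)

theorem Lam_add {f g : ℝ → ℝ} (hf : Integrable f (gaussianReal 0 1)) (hg : Integrable g (gaussianReal 0 1)) :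
    Lam s X (fun z => f z + g z) = Lam s X f + Lam s X g := by
  unfold Lam
  rw [sum_add_distrib, integral_add hf hg]
  ring

theorem Lam_const_mul (c : ℝ) (f : ℝ → ℝ) : Lam s X (fun z => c * f z) = c * Lam s X f := by
  unfold Lam
  rw [← mul_sum, integral_const_mul]
  ring

theorem int_bdd {f : ℝ → ℝ} (hf : Continuous f) (B : ℝ) (hB : ∀ x, |f x| ≤ B) : Integrable f (gaussianReal 0 1) := by
  apply Integrable.of_bound hf.aestronglyMeasurable B
  exact Filter.Eventually.of_forall fun x => hB x

theorem Lam_swap {f : ℝ → ℝ → ℝ} (hf : Continuous (Function.uncurry f)) (B : ℝ) (hB : ∀ t x, |f t x| ≤ B) (a b : ℝ) :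
    Lam s X (fun x => ∫ t in a..b, f t x) = ∫ t in a..b, Lam s X (f t) := by
  have hfin : IsFiniteMeasure (volume.restrict (Set.uIoc a b)) :=
    ⟨by rw [Measure.restrict_apply_univ, Set.uIoc, Real.volume_Ioc]; exact ENNReal.ofReal_lt_top⟩
  have hint : Integrable (Function.uncurry f) ((volume.restrict (Set.uIoc a b)).prod (gaussianReal 0 1)) := by
    apply Integrable.of_bound hf.aestronglyMeasurable B
    exact Filter.Eventually.of_forall fun x => hB x.1 x.2
  have h1 := intervalIntegral_integral_swap hint
  have hci : ∀ i ∈ s, IntervalIntegrable (fun t => f t (X i)) volume a b := by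
    intro i _
    apply Continuous.intervalIntegrable
    exact hf.comp (continuous_id.prodMk continuous_const)
  have hcg : IntervalIntegrable (fun t => ∫ z, f t z ∂(gaussianReal 0 1)) volume a b := by
    rw [intervalIntegrable_iff]
    exact hint.integral_prod_left
  unfold Lam
  rw [intervalIntegral.integral_sub, intervalIntegral.integral_finset_sum hci, intervalIntegral.integral_const_mul, h1]
  · apply Continuous.intervalIntegrable
    exact continuous_finset_sum _ fun i _ => hf.comp (continuous_id.prodMk continuous_const)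
  · exact hcg.const_mul _

theorem Lam_swap_le {f : ℝ → ℝ → ℝ} (hf : Continuous (Function.uncurry f)) (B : ℝ) (hB : ∀ t x, |f t x| ≤ B) (a b : ℝ) (η : ℝ)
    (hη : ∀ t ∈ Set.uIoc a b, |Lam s X (f t)| ≤ η) : |Lam s X (fun x => ∫ t in a..b, f t x)| ≤ η * |b - a| := by
  rw [Lam_swap s X hf B hB]
  have h := intervalIntegral.norm_integral_le_of_norm_le_const (a := a) (b := b) (C := η) (f := fun t => Lam s X (f t)) (fun t ht => by
    rw [Real.norm_eq_abs]
    exact hη t ht)
  rwa [Real.norm_eq_abs] at h

/-- the Taylor remainder of the exponential function -/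
theorem exp_rem (n : ℕ) (x : ℝ) : ‖Complex.exp (x * Complex.I) - ∑ k ∈ range n, (x * Complex.I) ^ k / (k.factorial : ℂ)‖ ≤
    |x| ^ n / (n.factorial : ℝ) := by
  induction n generalizing x with
  | zero =>
    simp [Complex.norm_exp_ofReal_mul_I]
  | succ n ih =>
    -- the derivative
    have hder : ∀ t : ℝ, HasDerivAt (fun t : ℝ => Complex.exp (t * Complex.I) - ∑ k ∈ range (n + 1), (t * Complex.I) ^ k / (k.factorial : ℂ))
        ((Complex.exp (t * Complex.I) - ∑ k ∈ range n, (t * Complex.I) ^ k / (k.factorial : ℂ)) * Complex.I) t := by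
      intro t
      have e0 : HasDerivAt (fun t : ℝ => (t : ℂ) * Complex.I) Complex.I t := by
        have := (Complex.ofRealCLM.hasDerivAt (x := t)).mul_const Complex.I
        simpa using this
      have e1 := e0.cexp
      have e2 : HasDerivAt (fun t : ℝ => ∑ k ∈ range (n + 1), (t * Complex.I) ^ k / (k.factorial : ℂ))
          (∑ k ∈ range (n + 1), ((k : ℂ) * (t * Complex.I) ^ (k - 1) * Complex.I) / (k.factorial : ℂ)) t := by
        apply HasDerivAt.fun_sum
        intro k _
        have e3 := (e0.pow k).div_const (k.factorial : ℂ)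
        exact e3
      have e4 := e1.sub e2
      refine e4.congr_deriv ?_
      rw [sum_range_succ']
      simp only [Nat.cast_zero, zero_mul, zero_div, add_zero, Nat.add_sub_cancel]
      rw [sub_mul, sum_mul]
      congr 1
      apply sum_congr rfl
      intro k _
      rw [Nat.factorial_succ]
      push_cast
      have hk : ((k : ℂ) + 1) ≠ 0 := by exact_mod_cast Nat.succ_ne_zero k
      have hf : (k.factorial : ℂ) ≠ 0 := by exact_mod_cast Nat.factorial_ne_zero k
      field_simp
    have h0 : Complex.exp ((0 : ℝ) * Complex.I) - ∑ k ∈ range (n + 1), ((0 : ℝ) * Complex.I) ^ k / (k.factorial : ℂ) = 0 := by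
      rw [sum_range_succ']
      simp
    have hci : Continuous (fun t : ℝ => (Complex.exp (t * Complex.I) - ∑ k ∈ range n, (t * Complex.I) ^ k / (k.factorial : ℂ)) * Complex.I) := by
      fun_prop
    have h1 : Complex.exp (x * Complex.I) - ∑ k ∈ range (n + 1), (x * Complex.I) ^ k / (k.factorial : ℂ) =
        ∫ t in (0 : ℝ)..x, (Complex.exp (t * Complex.I) - ∑ k ∈ range n, (t * Complex.I) ^ k / (k.factorial : ℂ)) * Complex.I := by
      rw [intervalIntegral.integral_eq_sub_of_hasDerivAt (fun t _ => hder t) (hci.intervalIntegrable _ _), h0, sub_zero]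
    rw [h1]
    have h2 : ∀ t : ℝ, ‖(Complex.exp (t * Complex.I) - ∑ k ∈ range n, (t * Complex.I) ^ k / (k.factorial : ℂ)) * Complex.I‖ ≤ |t| ^ n / (n.factorial : ℝ) := by
      intro t
      rw [norm_mul, Complex.norm_I, mul_one]
      exact ih t
    have hfac : (0 : ℝ) < n.factorial := by exact_mod_cast Nat.factorial_pos n
    have h3 : (|x| ^ (n + 1) / ((n + 1).factorial : ℝ)) = ∫ t in (0 : ℝ)..|x|, t ^ n / (n.factorial : ℝ) := by
      rw [intervalIntegral.integral_div, integral_pow, Nat.factorial_succ]
      push_cast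
      simp only [ne_eq, Nat.add_eq_zero_iff, one_ne_zero, and_false, not_false_eq_true, zero_pow, sub_zero]
      field_simp
    rw [h3]
    rcases le_or_gt 0 x with hx | hx
    · rw [abs_of_nonneg hx]
      refine (intervalIntegral.norm_integral_le_integral_norm hx).trans ?_
      apply intervalIntegral.integral_mono_on hx (hci.norm.intervalIntegrable _ _) (Continuous.intervalIntegrable (by fun_prop) _ _)
      intro t ht
      have := h2 t
      rwa [abs_of_nonneg ht.1] at this
    · rw [abs_of_neg hx]
      rw [intervalIntegral.integral_symm, norm_neg]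
      have h4 : ∫ t in x..0, (Complex.exp (t * Complex.I) - ∑ k ∈ range n, (t * Complex.I) ^ k / (k.factorial : ℂ)) * Complex.I =
          ∫ t in (0 : ℝ)..(-x), (Complex.exp ((-t : ℝ) * Complex.I) - ∑ k ∈ range n, ((-t : ℝ) * Complex.I) ^ k / (k.factorial : ℂ)) * Complex.I := by
        have := intervalIntegral.integral_comp_neg (a := 0) (b := -x)
          (fun t : ℝ => (Complex.exp (t * Complex.I) - ∑ k ∈ range n, (t * Complex.I) ^ k / (k.factorial : ℂ)) * Complex.I)
        rw [neg_neg, neg_zero] at this
        exact this.symm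
      rw [h4]
      have hx2 : 0 ≤ -x := by linarith
      refine (intervalIntegral.norm_integral_le_integral_norm hx2).trans ?_
      apply intervalIntegral.integral_mono_on hx2 (Continuous.intervalIntegrable (by fun_prop) _ _) (Continuous.intervalIntegrable (by fun_prop) _ _)
      intro t ht
      have := h2 (-t)
      rwa [abs_neg, abs_of_nonneg ht.1] at this

end Pool.Agent.K4H4.GL
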