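import Pool.Agent.K4H4.GL.Char

/-!
# Smoothed indicator functions
-/

set_option autoImplicit false

namespace Pool.Agent.K4H4.GL

open MeasureTheory Real ProbabilityTheory Finset

/-- a bounded version of `1 - t` -/
noncomputable def cl (t : ℝ) : ℝ := max 0 (min 1 (1 - t))

theorem cl_continuous : Continuous cl := by
  unfold cl
  fun_prop

theorem cl_nonneg (t : ℝ) : 0 ≤ cl t := le_max_left _ _

theorem cl_le_one (t : ℝ) : cl t ≤ 1 := max_le zero_le_one (min_le_left _ _)

theorem cl_abs (t : ℝ) : |cl t| ≤ 1 := by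
  rw [abs_of_nonneg (cl_nonneg t)]
  exact cl_le_one t

theorem kk_cl (x : ℝ) : kk x = ∫ t in (0 : ℝ)..1, cl t * Real.cos (t * x) := by
  unfold kk
  apply intervalIntegral.integral_congr
  intro t ht
  rw [Set.uIcc_of_le zero_le_one] at ht
  simp only
  congr 1
  unfold cl
  rw [min_eq_right (by linarith [ht.1]), max_eq_right (by linarith [ht.2])]

section Points

variable {ι : Type} (s : Finset ι) (X : ι → ℝ)

variable (U η : ℝ) (hη : ∀ u φ : ℝ, |u| ≤ U → |Lam s X (fun x => Real.cos (u * x + φ))| ≤ η)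

include hη

theorem Lam_kk (T w : ℝ) (hT0 : 0 ≤ T) (hT : T ≤ U) : |Lam s X (fun x => kk (T * (x - w)))| ≤ η := by
  have hη0 : 0 ≤ η := (abs_nonneg _).trans (hη 0 0 (by rw [abs_zero]; linarith))
  have h1 : (fun x => kk (T * (x - w))) = fun x => ∫ t in (0 : ℝ)..1, cl t * Real.cos (t * (T * (x - w))) := by
    funext x
    rw [kk_cl]
  rw [h1]
  have h2 := Lam_swap_le s X (f := fun t x => cl t * Real.cos (t * (T * (x - w)))) (by
    have := cl_continuous
    unfold Function.uncurry
    fun_prop) 1 (fun t x => by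
      rw [abs_mul]
      calc |cl t| * |Real.cos (t * (T * (x - w)))| ≤ 1 * 1 := mul_le_mul (cl_abs t) (Real.abs_cos_le_one _) (abs_nonneg _) zero_le_one
        _ = 1 := one_mul 1) 0 1 η (fun t ht => by
      rw [Set.uIoc_of_le zero_le_one] at ht
      show |Lam s X (fun x => cl t * Real.cos (t * (T * (x - w))))| ≤ η
      rw [Lam_const_mul, abs_mul]
      have h3 : (fun x => Real.cos (t * (T * (x - w)))) = fun x => Real.cos (t * T * x + -(t * T * w)) := by
        funext x
        congr 1
        ring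
      rw [h3]
      have h4 := hη (t * T) (-(t * T * w)) (by
        rw [abs_of_nonneg (mul_nonneg ht.1.le hT0)]
        nlinarith [ht.2, ht.1])
      calc |cl t| * |Lam s X (fun x => Real.cos (t * T * x + -(t * T * w)))| ≤ 1 * η := mul_le_mul (cl_abs t) h4 (abs_nonneg _) zero_le_one
        _ = η := one_mul η)
  rwa [sub_zero, abs_one, mul_one] at h2

theorem Lam_cc (T w t r : ℝ) (hT0 : 0 ≤ T) (hT : 2 * T ≤ U) (ht0 : 0 ≤ t) (ht1 : t ≤ 1) (hr0 : 0 ≤ r) (hr1 : r ≤ 1) :
    |Lam s X (fun x => Real.cos (t * (T * (x - w))) * Real.cos (r * (T * (x - w))))| ≤ η := by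
  have h1 : (fun x => Real.cos (t * (T * (x - w))) * Real.cos (r * (T * (x - w)))) =
      fun x => (1 / 2) * Real.cos ((t + r) * T * x + -((t + r) * T * w)) + (1 / 2) * Real.cos ((t - r) * T * x + -((t - r) * T * w)) := by
    funext x
    have e1 : (t + r) * T * x + -((t + r) * T * w) = t * (T * (x - w)) + r * (T * (x - w)) := by ring
    have e2 : (t - r) * T * x + -((t - r) * T * w) = t * (T * (x - w)) - r * (T * (x - w)) := by ring
    rw [e1, e2, Real.cos_add, Real.cos_sub]
    ring
  rw [h1, Lam_add s X (int_bdd (by fun_prop) 1 (fun x => by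
    rw [abs_mul]
    have := Real.abs_cos_le_one ((t + r) * T * x + -((t + r) * T * w))
    rw [abs_of_pos (by norm_num : (0 : ℝ) < 1 / 2)]
    linarith)) (int_bdd (by fun_prop) 1 (fun x => by
    rw [abs_mul]
    have := Real.abs_cos_le_one ((t - r) * T * x + -((t - r) * T * w))
    rw [abs_of_pos (by norm_num : (0 : ℝ) < 1 / 2)]
    linarith)), Lam_const_mul, Lam_const_mul]
  have h2 := hη ((t + r) * T) (-((t + r) * T * w)) (by
    rw [abs_of_nonneg (by positivity)]
    nlinarith)
  have h3 := hη ((t - r) * T) (-((t - r) * T * w)) (by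
    rw [abs_mul, abs_of_nonneg hT0]
    have : |t - r| ≤ 1 := by
      rw [abs_le]
      constructor <;> linarith
    nlinarith [abs_nonneg (t - r)])
  refine (abs_add_le _ _).trans ?_
  rw [abs_mul, abs_mul, abs_of_pos (by norm_num : (0 : ℝ) < 1 / 2)]
  linarith

theorem Lam_kk2 (T w : ℝ) (hT0 : 0 ≤ T) (hT : 2 * T ≤ U) : |Lam s X (fun x => kk (T * (x - w)) ^ 2)| ≤ η := by
  have hη0 : 0 ≤ η := (abs_nonneg _).trans (hη 0 0 (by rw [abs_zero]; linarith))
  have hkc := kk_continuous
  have hcc := cl_continuous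
  -- the inner integral
  have hin : ∀ t : ℝ, 0 ≤ t → t ≤ 1 → |Lam s X (fun x => Real.cos (t * (T * (x - w))) * kk (T * (x - w)))| ≤ η := by
    intro t ht0 ht1
    have h1 : (fun x => Real.cos (t * (T * (x - w))) * kk (T * (x - w))) =
        fun x => ∫ r in (0 : ℝ)..1, cl r * (Real.cos (t * (T * (x - w))) * Real.cos (r * (T * (x - w)))) := by
      funext x
      rw [kk_cl, ← intervalIntegral.integral_const_mul]
      apply intervalIntegral.integral_congr
      intro r _
      simp only
      ring
    rw [h1]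
    have h2 := Lam_swap_le s X (f := fun r x => cl r * (Real.cos (t * (T * (x - w))) * Real.cos (r * (T * (x - w))))) (by
      unfold Function.uncurry
      fun_prop) 1 (fun r x => by
        rw [abs_mul, abs_mul]
        have a1 := cl_abs r
        have a2 := Real.abs_cos_le_one (t * (T * (x - w)))
        have a3 := Real.abs_cos_le_one (r * (T * (x - w)))
        have a4 := abs_nonneg (Real.cos (t * (T * (x - w))))
        have a5 := abs_nonneg (Real.cos (r * (T * (x - w))))
        have a6 := abs_nonneg (cl r)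
        calc |cl r| * (|Real.cos (t * (T * (x - w)))| * |Real.cos (r * (T * (x - w)))|) ≤ 1 * (1 * 1) := by gcongr
          _ = 1 := by norm_num) 0 1 η (fun r hr => by
        rw [Set.uIoc_of_le zero_le_one] at hr
        show |Lam s X (fun x => cl r * (Real.cos (t * (T * (x - w))) * Real.cos (r * (T * (x - w)))))| ≤ η
        rw [Lam_const_mul, abs_mul]
        have h4 := Lam_cc s X U η hη T w t r hT0 hT ht0 ht1 hr.1.le hr.2
        calc _ ≤ 1 * η := mul_le_mul (cl_abs r) h4 (abs_nonneg _) zero_le_one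
          _ = η := one_mul η)
    rwa [sub_zero, abs_one, mul_one] at h2
  have h1 : (fun x => kk (T * (x - w)) ^ 2) = fun x => ∫ t in (0 : ℝ)..1, cl t * (Real.cos (t * (T * (x - w))) * kk (T * (x - w))) := by
    funext x
    have h0 : kk (T * (x - w)) ^ 2 = (∫ t in (0 : ℝ)..1, cl t * Real.cos (t * (T * (x - w)))) * kk (T * (x - w)) := by
      rw [← kk_cl, sq]
    rw [h0, ← intervalIntegral.integral_mul_const]
    apply intervalIntegral.integral_congr
    intro t _
    simp only
    ring
  rw [h1]
  have h2 := Lam_swap_le s X (f := fun t x => cl t * (Real.cos (t * (T * (x - w))) * kk (T * (x - w)))) (by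
    unfold Function.uncurry
    fun_prop) 1 (fun t x => by
      rw [abs_mul, abs_mul]
      have a1 := cl_abs t
      have a2 := Real.abs_cos_le_one (t * (T * (x - w)))
      have a3 : |kk (T * (x - w))| ≤ 1 := (kk_abs _).trans (by norm_num)
      have a4 := abs_nonneg (Real.cos (t * (T * (x - w))))
      have a5 := abs_nonneg (kk (T * (x - w)))
      have a6 := abs_nonneg (cl t)
      calc |cl t| * (|Real.cos (t * (T * (x - w)))| * |kk (T * (x - w))|) ≤ 1 * (1 * 1) := by gcongr
        _ = 1 := by norm_num) 0 1 η (fun t ht => by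
      rw [Set.uIoc_of_le zero_le_one] at ht
      show |Lam s X (fun x => cl t * (Real.cos (t * (T * (x - w))) * kk (T * (x - w))))| ≤ η
      rw [Lam_const_mul, abs_mul]
      calc _ ≤ 1 * η := mul_le_mul (cl_abs t) (hin t ht.1.le ht.2) (abs_nonneg _) zero_le_one
        _ = η := one_mul η)
  rwa [sub_zero, abs_one, mul_one] at h2

/-- the smoothed indicator function of `[a, b]`, without normalisation -/
theorem Lam_Gi (T a b : ℝ) (hT0 : 0 < T) (hT : 2 * T ≤ U) :
    |Lam s X (fun x => Gi (T * (x - a)) - Gi (T * (x - b)))| ≤ T * (η * |b - a|) := by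
  have hkc := kk_continuous
  have h1 : (fun x => Gi (T * (x - a)) - Gi (T * (x - b))) = fun x => T * ∫ w in a..b, kk (T * (x - w)) ^ 2 := by
    funext x
    rw [Gi_sub]
    have h2 := intervalIntegral.integral_comp_sub_mul (a := a) (b := b) (fun y => kk y ^ 2) hT0.ne' (T * x)
    have h3 : ∀ w : ℝ, T * x - T * w = T * (x - w) := fun w => by ring
    simp only [h3] at h2
    rw [h2, smul_eq_mul, ← mul_assoc, mul_inv_cancel₀ hT0.ne', one_mul]
  rw [h1, Lam_const_mul, abs_mul, abs_of_pos hT0]
  apply mul_le_mul_of_nonneg_left _ hT0.le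
  apply Lam_swap_le s X (f := fun w x => kk (T * (x - w)) ^ 2) (by
    unfold Function.uncurry
    fun_prop) 1 (fun w x => by
      rw [abs_of_nonneg (sq_nonneg _)]
      have := kk_le_half (T * (x - w))
      have := kk_nonneg (T * (x - w))
      nlinarith) a b η (fun w _ => Lam_kk2 s X U η hη T w hT0.le hT)

theorem Lam_Ph (T w : ℝ) (hT0 : 0 < T) (hT : 2 * T ≤ U) : |Lam s X (fun x => Ph (T * (x - w)))| ≤ 2 * η := by
  have hkc := kk_continuous
  have h1 : (fun x => Ph (T * (x - w))) = fun x => kk (T * (x - w)) + kk (T * (x - (w + π / T))) := by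
    funext x
    unfold Ph
    congr 2
    field_simp
    ring
  rw [h1, Lam_add s X (int_bdd (by fun_prop) 1 (fun x => (kk_abs _).trans (by norm_num)))
    (int_bdd (by fun_prop) 1 (fun x => (kk_abs _).trans (by norm_num)))]
  refine (abs_add_le _ _).trans ?_
  have h2 := Lam_kk s X U η hη T w hT0.le (by linarith)
  have h3 := Lam_kk s X U η hη T (w + π / T) hT0.le (by linarith)
  linarith

end Points

/-- the characteristic function of the normal law -/
theorem gauss_cos (u φ : ℝ) : |∫ z, Real.cos (u * z + φ) ∂(gaussianReal 0 1)| ≤ Real.exp (-(u ^ 2 / 2)) := by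
  have h1 : ((∫ z, Real.cos (u * z + φ) ∂(gaussianReal 0 1) : ℝ)) = (Complex.exp (φ * Complex.I) * charFun (gaussianReal 0 1) u).re := by
    rw [charFun_apply_real, ← integral_const_mul]
    have hint : Integrable (fun z : ℝ => Complex.exp (φ * Complex.I) * Complex.exp (u * z * Complex.I)) (gaussianReal 0 1) := by
      apply Integrable.of_bound (C := 1)
      · apply Continuous.aestronglyMeasurable
        fun_prop
      · refine Filter.Eventually.of_forall fun z => ?_
        rw [norm_mul, Complex.norm_exp_ofReal_mul_I, one_mul, ← Complex.ofReal_mul, Complex.norm_exp_ofReal_mul_I]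
    have h2 := integral_re hint
    have h3 : ∀ z : ℝ, Real.cos (u * z + φ) = RCLike.re (Complex.exp (φ * Complex.I) * Complex.exp (u * z * Complex.I)) := by
      intro z
      rw [cos_eq]
      push_cast
      rfl
    simp only [h3]
    exact h2
  rw [h1]
  refine (Complex.abs_re_le_norm _).trans ?_
  rw [norm_mul, Complex.norm_exp_ofReal_mul_I, one_mul, charFun_gaussianReal, Complex.norm_exp]
  apply Real.exp_le_exp.2
  simp
  norm_cast

theorem gauss_kk (T w : ℝ) (hT : 0 < T) : |∫ z, kk (T * (z - w)) ∂(gaussianReal 0 1)| ≤ 2 / T := by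
  have hcc := cl_continuous
  have hfin : IsFiniteMeasure (volume.restrict (Set.uIoc (0 : ℝ) 1)) :=
    ⟨by rw [Measure.restrict_apply_univ, Set.uIoc, Real.volume_Ioc]; exact ENNReal.ofReal_lt_top⟩
  have hint : Integrable (Function.uncurry (fun t z => cl t * Real.cos (t * (T * (z - w))))) ((volume.restrict (Set.uIoc (0 : ℝ) 1)).prod (gaussianReal 0 1)) := by
    apply Integrable.of_bound (C := 1)
    · apply Continuous.aestronglyMeasurable
      unfold Function.uncurry
      fun_prop
    · refine Filter.Eventually.of_forall fun x => ?_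
      show |cl x.1 * Real.cos (x.1 * (T * (x.2 - w)))| ≤ 1
      rw [abs_mul]
      calc |cl x.1| * |Real.cos (x.1 * (T * (x.2 - w)))| ≤ 1 * 1 := mul_le_mul (cl_abs _) (Real.abs_cos_le_one _) (abs_nonneg _) zero_le_one
        _ = 1 := one_mul 1
  have h1 := intervalIntegral_integral_swap hint
  have h2 : (fun z => kk (T * (z - w))) = fun z => ∫ t in (0 : ℝ)..1, cl t * Real.cos (t * (T * (z - w))) := by
    funext z
    rw [kk_cl]
  rw [h2, ← h1]
  have hb : 0 < T ^ 2 / 2 := by positivity
  have h3 : |∫ t in (0 : ℝ)..1, ∫ z, cl t * Real.cos (t * (T * (z - w))) ∂(gaussianReal 0 1)| ≤ ∫ t in (0 : ℝ)..1, Real.exp (-(T ^ 2 / 2) * t ^ 2) := by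
    have h4 := intervalIntegral.norm_integral_le_of_norm_le (a := 0) (b := 1) (μ := volume) zero_le_one
      (f := fun t => ∫ z, cl t * Real.cos (t * (T * (z - w))) ∂(gaussianReal 0 1)) (g := fun t => Real.exp (-(T ^ 2 / 2) * t ^ 2)) (by
        refine Filter.Eventually.of_forall fun t ht => ?_
        rw [integral_const_mul, norm_mul, Real.norm_eq_abs, Real.norm_eq_abs]
        have h5 := gauss_cos (t * T) (-(t * T * w))
        have h6 : ∀ z : ℝ, t * T * z + -(t * T * w) = t * (T * (z - w)) := fun z => by ring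
        simp only [h6] at h5
        have h7 : Real.exp (-((t * T) ^ 2 / 2)) = Real.exp (-(T ^ 2 / 2) * t ^ 2) := by
          congr 1
          ring
        rw [h7] at h5
        calc _ ≤ 1 * Real.exp (-(T ^ 2 / 2) * t ^ 2) := mul_le_mul (cl_abs t) h5 (abs_nonneg _) zero_le_one
          _ = _ := one_mul _) (Continuous.intervalIntegrable (by fun_prop) _ _)
    rwa [Real.norm_eq_abs] at h4
  refine h3.trans ?_
  rw [intervalIntegral.integral_of_le zero_le_one]
  have h6 : ∫ t in Set.Ioc (0 : ℝ) 1, Real.exp (-(T ^ 2 / 2) * t ^ 2) ≤ ∫ t in Set.Ioi (0 : ℝ), Real.exp (-(T ^ 2 / 2) * t ^ 2) := by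
    apply setIntegral_mono_set
    · exact (integrable_exp_neg_mul_sq hb).integrableOn
    · exact Filter.Eventually.of_forall (fun t => (Real.exp_pos _).le)
    · exact Filter.Eventually.of_forall (fun t ht => ht.1)
  refine h6.trans ?_
  rw [integral_gaussian_Ioi]
  have h7 : √(π / (T ^ 2 / 2)) ≤ 4 / T := by
    rw [Real.sqrt_le_left (by positivity), div_pow]
    rw [div_le_div_iff₀ (by positivity) (by positivity)]
    nlinarith [Real.pi_le_four, sq_nonneg T, mul_pos hT hT]
  calc √(π / (T ^ 2 / 2)) / 2 ≤ (4 / T) / 2 := by gcongr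
    _ = 2 / T := by ring

theorem gauss_Ph (T w : ℝ) (hT : 0 < T) : |∫ z, Ph (T * (z - w)) ∂(gaussianReal 0 1)| ≤ 4 / T := by
  have hkc := kk_continuous
  have h1 : (fun x => Ph (T * (x - w))) = fun x => kk (T * (x - w)) + kk (T * (x - (w + π / T))) := by
    funext x
    unfold Ph
    congr 2
    field_simp
    ring
  rw [h1, integral_add (int_bdd (by fun_prop) 1 (fun x => (kk_abs _).trans (by norm_num)))
    (int_bdd (by fun_prop) 1 (fun x => (kk_abs _).trans (by norm_num)))]
  refine (abs_add_le _ _).trans ?_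
  have h2 := gauss_kk T w hT
  have h3 := gauss_kk T (w + π / T) hT
  have h4 : 4 / T = 2 / T + 2 / T := by ring
  linarith

end Pool.Agent.K4H4.GL
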